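import Pool.Agent.ContA.Haven

set_option autoImplicit false

open Set Metric Filter Topology

namespace Pool.Agent.ContA

section arc

variable {X : Type} [MetricSpace X] [CompactSpace X]

/-- An open arc inside the continuum `N`, from a chart that increases somewhere. -/
theorem exists_arc_aux {N C U : Set X} (hN : IsClosed N)
    (hCN : C ⊆ N) (hC : IsCompact C) (hCc : IsPreconnected C) {x y : X} {ρ : ℝ} (hρ : 0 < ρ)
    (hx : x ∈ C) (hy : y ∈ C) (hball : ball x ρ ∩ N ⊆ C) (hCU : C ⊆ U) {φ : X → ℝ}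
    (hφ : ContinuousOn φ (U ∩ N)) (hinj : InjOn φ (U ∩ N)) (hxy : φ x < φ y) :
    ∃ α β : ℝ, α < β ∧ ∃ γ : ℝ → X, ContinuousOn γ (Icc α β) ∧ InjOn γ (Icc α β) ∧
      (∀ t ∈ Icc α β, γ t ∈ N) ∧
      ∀ a b, α ≤ a → a < b → b ≤ β → IsClosed (N \ γ '' Ioo a b) := by
  have hCUN : C ⊆ U ∩ N := fun z hz => ⟨hCU hz, hCN hz⟩
  have hφC : ContinuousOn φ C := hφ.mono hCUN
  have hinjC : InjOn φ C := hinj.mono hCUN
  have : Nonempty X := ⟨x⟩
  set γ : ℝ → X := Function.invFunOn φ C with hγ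
  have hγC : ∀ t ∈ φ '' C, γ t ∈ C := fun t ht => Function.invFunOn_mem ht
  have hφγ : ∀ t ∈ φ '' C, φ (γ t) = t := fun t ht => Function.invFunOn_eq ht
  have hγφ : ∀ z ∈ C, γ (φ z) = z := fun z hz =>
    hinjC (hγC _ ⟨z, hz, rfl⟩) hz (hφγ _ ⟨z, hz, rfl⟩)
  have hγc : ContinuousOn γ (φ '' C) := by
    rw [continuousOn_iff_isClosed]
    intro t ht
    refine ⟨φ '' (C ∩ t), ?_, ?_⟩
    · exact ((hC.inter_right ht).image_of_continuousOn
        (hφC.mono inter_subset_left)).isClosed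
    · ext s
      constructor
      · rintro ⟨h1, h2⟩
        exact ⟨⟨γ s, ⟨hγC s h2, h1⟩, hφγ s h2⟩, h2⟩
      · rintro ⟨⟨z, ⟨hzC, hzt⟩, rfl⟩, h2⟩
        refine ⟨?_, h2⟩
        rw [mem_preimage, hγφ z hzC]
        exact hzt
  have hIcc : Icc (φ x) (φ y) ⊆ φ '' C :=
    (hCc.image φ hφC).Icc_subset ⟨x, hx, rfl⟩ ⟨y, hy, rfl⟩
  -- near `φ x` the inverse takes values in the ball
  have hxim : φ x ∈ φ '' C := ⟨x, hx, rfl⟩
  obtain ⟨η, hη, hηb⟩ := Metric.continuousOn_iff.1 hγc (φ x) hxim ρ hρ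
  set β : ℝ := min (φ y) (φ x + η / 2) with hβ
  have hαβ : φ x < β := lt_min hxy (by linarith)
  have hsub : Icc (φ x) β ⊆ φ '' C :=
    (Icc_subset_Icc le_rfl (min_le_left _ _)).trans hIcc
  have hγball : ∀ t ∈ Icc (φ x) β, γ t ∈ ball x ρ := by
    intro t ht
    have h1 : dist t (φ x) < η := by
      rw [Real.dist_eq, abs_of_nonneg (by linarith [ht.1])]
      have := ht.2.trans (min_le_right _ _)
      linarith
    have h2 := hηb t (hsub ht) h1
    rwa [hγφ x hx] at h2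
  refine ⟨φ x, β, hαβ, γ, hγc.mono hsub, ?_, fun t ht => hCN (hγC t (hsub ht)), ?_⟩
  · intro s hs t ht hst
    rw [← hφγ s (hsub hs), ← hφγ t (hsub ht), hst]
  · intro a b ha hab hb
    have hIoo : Ioo a b ⊆ Icc (φ x) β := fun t ht => ⟨ha.trans ht.1.le, ht.2.le.trans hb⟩
    have heq : N \ γ '' Ioo a b = (N \ ball x ρ) ∪ (C ∩ φ ⁻¹' (Ioo a b)ᶜ) := by
      ext z
      constructor
      · rintro ⟨hzN, hz⟩
        by_cases hzb : z ∈ ball x ρ
        · right
          have hzC : z ∈ C := hball ⟨hzb, hzN⟩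
          refine ⟨hzC, fun h => hz ⟨φ z, h, hγφ z hzC⟩⟩
        · exact Or.inl ⟨hzN, hzb⟩
      · rintro (⟨hzN, hz⟩ | ⟨hzC, hz⟩)
        · refine ⟨hzN, ?_⟩
          rintro ⟨t, ht, rfl⟩
          exact hz (hγball t (hIoo ht))
        · refine ⟨hCN hzC, ?_⟩
          rintro ⟨t, ht, rfl⟩
          apply hz
          rw [hφγ t (hsub (hIoo ht))]
          exact ht
    rw [heq]
    apply IsClosed.union
    · exact hN.sdiff isOpen_ball
    · exact hφC.preimage_isClosed_of_isClosed hC.isClosed isOpen_Ioo.isClosed_compl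

/-- A nondegenerate continuum in a space with (A) and (B) contains a relatively open arc. -/
theorem exists_arc (hA : PropA X) (hB : PropB X) {N : Set X} (hN : IsClosed N)
    (hNc : IsPreconnected N) {p q : X} (hp : p ∈ N) (hq : q ∈ N) (hpq : p ≠ q) :
    ∃ α β : ℝ, α < β ∧ ∃ γ : ℝ → X, ContinuousOn γ (Icc α β) ∧ InjOn γ (Icc α β) ∧
      (∀ t ∈ Icc α β, γ t ∈ N) ∧
      ∀ a b, α ≤ a → a < b → b ≤ β → IsClosed (N \ γ '' Ioo a b) := by
  obtain ⟨U, hU, ⟨x, hxU, hxN⟩, -, φ, hφ, hφi⟩ := exists_arc_chart hA hB (F := ∅)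
    (by intro M hM; exact absurd hM (notMem_empty M)) (fun M hM => absurd hM (notMem_empty M))
    hN ⟨p, hp⟩
  have hinj : InjOn φ (U ∩ N) := by
    intro a ha b hb hab
    rcases (hφi a ha b hb).1 hab with h | ⟨M, hM, -⟩
    · exact h
    · exact absurd hM (notMem_empty M)
  obtain ⟨r, hr, hrU⟩ := Metric.nhds_basis_closedBall.mem_iff.1 (hU.mem_nhds hxU)
  obtain ⟨C, hC, hCc, hCcon, hxC, ρ, hρ, hρC⟩ := locconn_compact hA hN.isCompact hNc hxN hr
  obtain ⟨y, hyN, hyb, hyx⟩ := hNc (ball x ρ) {x}ᶜ isOpen_ball isClosed_singleton.isOpen_compl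
    (by
      intro z _
      by_cases h : z = x
      · left
        rw [h]
        exact mem_ball_self hρ
      · exact Or.inr h)
    ⟨x, hxN, mem_ball_self hρ⟩
    (by
      by_cases h : p = x
      · exact ⟨q, hq, fun e => hpq (h.trans (mem_singleton_iff.1 e).symm)⟩
      · exact ⟨p, hp, h⟩)
  have hyC : y ∈ C := hρC ⟨hyb, hyN⟩
  have hCN : C ⊆ N := fun z hz => (hC hz).1
  have hCU : C ⊆ U := fun z hz => hrU (hC hz).2
  have hne : φ x ≠ φ y := fun e => hyx (hinj ⟨hxU, hxN⟩ ⟨hCU hyC, hyN⟩ e).symm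
  rcases lt_or_gt_of_ne hne with hlt | hlt
  · exact exists_arc_aux hN hCN hCc hCcon.isPreconnected hρ hxC hyC hρC hCU hφ hinj hlt
  · refine exists_arc_aux (φ := fun z => -φ z) hN hCN hCc hCcon.isPreconnected hρ hxC hyC hρC hCU
      hφ.neg ?_ (neg_lt_neg hlt)
    intro a ha b hb hab
    exact hinj ha hb (neg_injective hab)

end arc

section real

/-- A nondegenerate interval contains a smaller one avoiding a finite set. -/
theorem exists_Icc_avoid {a b : ℝ} (hab : a < b) {T : Set ℝ} (hT : T.Finite) :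
    ∃ s t, a < s ∧ s < t ∧ t < b ∧ Disjoint (Icc s t) T := by
  obtain ⟨x, hx1, hx2⟩ : ∃ x ∈ Ioo a b, x ∉ T := by
    by_contra hcon
    push Not at hcon
    exact (Ioo_infinite hab) (hT.subset hcon)
  have hopen : Ioo a b ∩ Tᶜ ∈ 𝓝 x := (isOpen_Ioo.inter hT.isClosed.isOpen_compl).mem_nhds ⟨hx1, hx2⟩
  obtain ⟨η, hη, hηs⟩ := Metric.nhds_basis_closedBall.mem_iff.1 hopen
  have h1 : Icc (x - η) (x + η) ⊆ Ioo a b ∩ Tᶜ := by
    rw [← Real.closedBall_eq_Icc]
    exact hηs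
  have h2 := (h1 (show x - η ∈ Icc (x - η) (x + η) from ⟨le_rfl, by linarith⟩)).1
  have h3 := (h1 (show x + η ∈ Icc (x - η) (x + η) from ⟨by linarith, le_rfl⟩)).1
  refine ⟨x - η, x + η, h2.1, by linarith, h3.2, ?_⟩
  rw [Set.disjoint_left]
  intro z hz hzT
  exact (h1 hz).2 hzT

end real

end Pool.Agent.ContA
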