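import Pool.Agent.ContA.LocConn

set_option autoImplicit false

open Set Metric Filter Topology

namespace Pool.Agent.ContA

section between

variable {X : Type} [MetricSpace X] [CompactSpace X] [PreconnectedSpace X]

/-- The union of the continuum components (in `S`) of the points of `T`. -/
def kapU (S T : Set X) : Set X := ⋃ z ∈ T, kap S z

omit [CompactSpace X] [PreconnectedSpace X] in
theorem mem_kapU {S T : Set X} {x : X} : x ∈ kapU S T ↔ ∃ z ∈ T, CRel S z x := by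
  simp [kapU, kap]

omit [PreconnectedSpace X] in
/-- A ball around a point outside finitely many components avoids them. -/
theorem exists_ball_disjoint (hA : PropA X) {S T : Set X} (hT : T.Finite) {x : X} (hx : x ∈ S)
    (hxT : x ∉ kapU S T) : ∃ ε > 0, Disjoint (ball x ε) (kapU S T) := by
  have h1 : x ∉ closure (kapU S T) := by
    rw [kapU, hT.closure_biUnion]
    simp only [mem_iUnion, not_exists]
    intro z hz hcl
    exact hxT (mem_kapU.2 ⟨z, hz, mem_kap_of_mem_closure hA hx hcl⟩)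
  obtain ⟨ε, hε, h2⟩ := Metric.isOpen_iff.1 isClosed_closure.isOpen_compl x h1
  refine ⟨ε, hε, ?_⟩
  rw [Set.disjoint_left]
  intro y hy hyT
  exact h2 hy (subset_closure hyT)

/-- Components of `E` minus finitely many continuum components are neighbourhoods. -/
theorem component_mem_nhdsWithin (hA : PropA X) (hB : PropB X) {S E T : Set X} (hES : E ⊆ S)
    (hE : IsPreconnected E) (hT : T.Finite) {y : X} (hy : y ∈ E \ kapU S T) :
    connectedComponentIn (E \ kapU S T) y ∈ 𝓝[E] y := by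
  obtain ⟨ε, hε, hd⟩ := exists_ball_disjoint hA hT (hES hy.1) hy.2
  obtain ⟨N, hN, hNc, hyN, hNn⟩ := locconn_subset hA hB hE hy.1 hε
  refine mem_of_superset hNn (hNc.subset_connectedComponentIn hyN ?_)
  intro z hz
  exact ⟨(hN hz).1, Set.disjoint_left.1 hd (hN hz).2⟩

/-- Near a point of a node, everything belongs to the node or is adjacent to it. -/
theorem near_node (hA : PropA X) (hB : PropB X) {S E T : Set X} (hES : E ⊆ S)
    (hE : IsPreconnected E) (hT : T.Finite) (hTrel : ∀ z ∈ T, ∀ z' ∈ T, CRel S z z' → z = z')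
    {c z₀ : X} (hc : c ∈ E) (hz₀ : z₀ ∈ T) (hcz : CRel S z₀ c) :
    ∀ᶠ y in 𝓝[E] c, CRel S z₀ y ∨ (y ∈ E \ kapU S T ∧
      (kap S z₀ ∩ E ∩ closure (connectedComponentIn (E \ kapU S T) y)).Nonempty) := by
  have hT' : (T \ {z₀}).Finite := hT.subset sdiff_subset
  obtain ⟨ε, hε, hd⟩ := exists_ball_disjoint hA hT' (hES hc) (by
    intro h
    obtain ⟨z, hz, hzc⟩ := mem_kapU.1 h
    exact hz.2 (hTrel z hz.1 z₀ hz₀ (hzc.trans hcz.symm)))
  obtain ⟨N, hN, hNc, hcN, hNn⟩ := locconn_subset hA hB hE hc hε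
  refine mem_of_superset hNn ?_
  intro y hy
  by_cases hyz : CRel S z₀ y
  · exact Or.inl hyz
  right
  have hNT : ∀ n ∈ N, n ∈ kapU S T → CRel S z₀ n := by
    intro n hn hnT
    obtain ⟨z, hz, hzn⟩ := mem_kapU.1 hnT
    by_cases hzz : z = z₀
    · rwa [← hzz]
    · have hmem : n ∈ kapU S (T \ {z₀}) := mem_kapU.2 ⟨z, ⟨hz, hzz⟩, hzn⟩
      exact absurd hmem (Set.disjoint_left.1 hd (hN hn).2)
  have hyE : y ∈ E \ kapU S T := ⟨(hN hy).1, fun h => hyz (hNT y hy h)⟩
  refine ⟨hyE, ?_⟩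
  by_contra hcon
  have hcon' : ∀ n ∈ E, CRel S z₀ n → n ∉ closure (connectedComponentIn (E \ kapU S T) y) := by
    intro n hn hzn hcl
    have hne : (kap S z₀ ∩ E ∩ closure (connectedComponentIn (E \ kapU S T) y)).Nonempty :=
      ⟨n, ⟨hzn, hn⟩, hcl⟩
    exact hcon hne
  set G := connectedComponentIn (E \ kapU S T) y with hG
  have hGE : G ⊆ E \ kapU S T := connectedComponentIn_subset _ _
  -- `G` is relatively open in `E`
  have hGo : ∀ g ∈ G, ∃ O, IsOpen O ∧ g ∈ O ∧ O ∩ E ⊆ G := by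
    intro g hg
    have h1 := component_mem_nhdsWithin hA hB hES hE hT (hGE hg)
    rw [← connectedComponentIn_eq hg] at h1
    exact mem_nhdsWithin.1 h1
  choose! O hO hgO hOG using hGo
  obtain ⟨n, hnN, hn1, hn2⟩ := hNc (⋃ g ∈ G, O g) (closure G)ᶜ (isOpen_biUnion hO)
    isClosed_closure.isOpen_compl
    (by
      intro n hn
      by_cases h : n ∈ closure G
      · left
        have hnT : n ∉ kapU S T := fun h' => hcon' n (hN hn).1 (hNT n hn h') h
        have hnG : n ∈ G := mem_component_of_mem_closure ⟨(hN hn).1, hnT⟩ h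
        exact mem_biUnion hnG (hgO n hnG)
      · exact Or.inr h)
    ⟨y, hy, mem_biUnion (mem_connectedComponentIn hyE) (hgO y (mem_connectedComponentIn hyE))⟩
    ⟨c, hcN, hcon' c hc hcz⟩
  simp only [mem_iUnion] at hn1
  obtain ⟨g, hg, hng⟩ := hn1
  exact hn2 (subset_closure (hOG g hg ⟨hng, (hN hnN).1⟩))

/-- The key connectivity lemma for the graph of nodes and components. -/
theorem exists_between (hA : PropA X) (hB : PropB X) {S E T : Set X} (hES : E ⊆ S)
    (hE : IsPreconnected E) (hT : T.Finite) (hTrel : ∀ z ∈ T, ∀ z' ∈ T, CRel S z z' → z = z')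
    {C : Set X} (hCE : C ⊆ E) (hC : IsPreconnected C) {A : Set X} {z₁ z₂ : X}
    (hz₁ : z₁ ∈ T) (hz₁A : z₁ ∈ A) (hz₂ : z₂ ∈ T) (hz₂A : z₂ ∉ A)
    (hz₁C : (kap S z₁ ∩ C).Nonempty) (hz₂C : (kap S z₂ ∩ C).Nonempty) :
    ∃ y ∈ (E \ kapU S T) ∩ C, ∃ a ∈ T, a ∈ A ∧ (kap S a ∩ C).Nonempty ∧
      (kap S a ∩ E ∩ closure (connectedComponentIn (E \ kapU S T) y)).Nonempty ∧
      ∃ b ∈ T, b ∉ A ∧ (kap S b ∩ C).Nonempty ∧
      (kap S b ∩ E ∩ closure (connectedComponentIn (E \ kapU S T) y)).Nonempty := by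
  by_contra hcon
  push Not at hcon
  set p : X → Prop := fun y => (∃ a ∈ T, a ∈ A ∧ CRel S a y) ∨ (y ∈ E \ kapU S T ∧
    ∃ a ∈ T, a ∈ A ∧ (kap S a ∩ C).Nonempty ∧
      (kap S a ∩ E ∩ closure (connectedComponentIn (E \ kapU S T) y)).Nonempty) with hp
  have hpt : ∀ y a, a ∈ T → a ∈ A → CRel S a y → p y := fun y a h1 h2 h3 => Or.inl ⟨a, h1, h2, h3⟩
  have hpf : ∀ y b, b ∈ T → b ∉ A → CRel S b y → ¬ p y := by
    rintro y b hb hbA hby (⟨a, haT, haA, hay⟩ | ⟨hy, -⟩)
    · have : b = a := hTrel b hb a haT (hby.trans hay.symm)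
      exact hbA (this ▸ haA)
    · exact hy.2 (mem_kapU.2 ⟨b, hb, hby⟩)
  have hloc : ∀ x ∈ C, ∀ᶠ y in 𝓝[C] x, (p x ↔ p y) := by
    intro x hx
    by_cases hxT : x ∈ kapU S T
    · obtain ⟨z₀, hz₀, hz₀x⟩ := mem_kapU.1 hxT
      have h1 := near_node hA hB hES hE hT hTrel (hCE hx) hz₀ hz₀x
      have h2 := h1.filter_mono (nhdsWithin_mono x hCE)
      filter_upwards [h2, self_mem_nhdsWithin] with y hy hyC
      by_cases hzA : z₀ ∈ A
      · have hpx : p x := hpt x z₀ hz₀ hzA hz₀x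
        have hpy : p y := by
          rcases hy with h | ⟨h, h'⟩
          · exact hpt y z₀ hz₀ hzA h
          · exact Or.inr ⟨h, z₀, hz₀, hzA, ⟨x, hz₀x, hx⟩, h'⟩
        exact ⟨fun _ => hpy, fun _ => hpx⟩
      · have hpx : ¬ p x := hpf x z₀ hz₀ hzA hz₀x
        have hpy : ¬ p y := by
          rcases hy with h | ⟨h, h'⟩
          · exact hpf y z₀ hz₀ hzA h
          · rintro (⟨a, haT, haA, hay⟩ | ⟨-, a, haT, haA, haC, hay⟩)
            · exact h.2 (mem_kapU.2 ⟨a, haT, hay⟩)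
            · have := hcon y ⟨h, hyC⟩ a haT haA haC hay z₀ hz₀ hzA ⟨x, hz₀x, hx⟩
              exact h'.ne_empty this
        exact ⟨fun h => absurd h hpx, fun h => absurd h hpy⟩
    · have hxE : x ∈ E \ kapU S T := ⟨hCE hx, hxT⟩
      have h1 := component_mem_nhdsWithin hA hB hES hE hT hxE
      have h2 := nhdsWithin_mono x hCE h1
      filter_upwards [h2] with y hy
      have hyE : y ∈ E \ kapU S T := connectedComponentIn_subset _ _ hy
      have heq := connectedComponentIn_eq hy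
      have hnot : ∀ w, w ∈ E \ kapU S T → ¬ ∃ a ∈ T, a ∈ A ∧ CRel S a w := by
        rintro w hw ⟨a, haT, -, haw⟩
        exact hw.2 (mem_kapU.2 ⟨a, haT, haw⟩)
      constructor
      · rintro (h | ⟨-, h⟩)
        · exact absurd h (hnot x hxE)
        · rw [heq] at h
          exact Or.inr ⟨hyE, h⟩
      · rintro (h | ⟨-, h⟩)
        · exact absurd h (hnot y hyE)
        · rw [← heq] at h
          exact Or.inr ⟨hxE, h⟩
  obtain ⟨x₁, hx₁, hx₁C⟩ := hz₁C
  obtain ⟨x₂, hx₂, hx₂C⟩ := hz₂C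
  have h3 : p x₁ ↔ p x₂ := hC.induction₂ (fun x y => (p x ↔ p y)) hloc
    (fun _ _ _ _ _ _ h h' => h.trans h') (fun _ _ _ _ h => h.symm) hx₁C hx₂C
  exact hpf x₂ z₂ hz₂ hz₂A hx₂ (h3.1 (hpt x₁ z₁ hz₁ hz₁A hx₁))

end between

end Pool.Agent.ContA
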