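import Pool.Agent.ContA.Arc

set_option autoImplicit false

open Set Metric Filter Topology

namespace Pool.Agent.ContA

section bridge

variable {X : Type} [MetricSpace X]

/-- Given a point `x` of an open set `L` there is a connected open neighbourhood inside `L`. -/
theorem exists_conn_nhd [LocallyConnectedSpace X] {L : Set X} (hL : IsOpen L) {x : X}
    (hx : x ∈ L) : ∃ V ⊆ L, IsOpen V ∧ IsPreconnected V ∧ x ∈ V :=
  ⟨connectedComponentIn L x, connectedComponentIn_subset L x, hL.connectedComponentIn,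
    isPreconnected_connectedComponentIn, mem_connectedComponentIn hx⟩

/-- If a connected set `V ⊆ L` contains a point of `N` and a point `y` outside `N`, then the
component of `y` in `L \ N` has a limit point in `V ∩ N`. -/
theorem exists_limit_in [LocallyConnectedSpace X] {L N V : Set X} (hL : IsOpen L)
    (hN : IsClosed N) (hVL : V ⊆ L) (hV : IsPreconnected V) {x y : X} (hx : x ∈ V) (hxN : x ∈ N)
    (hy : y ∈ V) (hyN : y ∉ N) :
    ∃ z ∈ V ∩ N, z ∈ closure (connectedComponentIn (L \ N) y) := by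
  by_contra hcon
  push Not at hcon
  set G := connectedComponentIn (L \ N) y with hG
  have hGo : IsOpen G := (hL.sdiff hN).connectedComponentIn
  obtain ⟨w, hwV, hw1, hw2⟩ := hV G (closure G)ᶜ hGo isClosed_closure.isOpen_compl
    (by
      intro v hv
      by_cases h : v ∈ closure G
      · left
        have hvN : v ∉ N := fun hvN => hcon v ⟨hv, hvN⟩ h
        exact mem_component_of_mem_closure ⟨hVL hv, hvN⟩ h
      · exact Or.inr h)
    ⟨y, hy, mem_connectedComponentIn ⟨hVL hy, hyN⟩⟩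
    ⟨x, hx, fun h => hcon x ⟨hx, hxN⟩ h⟩
  exact hw2 (subset_closure hw1)

/-- The key connectivity step: if `L` is open and connected, and `N ∩ L` splits into two
nonempty relatively open parts `P`, `Q`, some component of `L \ N` has limit points in both. -/
theorem exists_component_between [LocallyConnectedSpace X] {L N P Q : Set X} (hL : IsOpen L)
    (hLc : IsPreconnected L) (hN : IsClosed N) (hPQ : L ∩ N = P ∪ Q)
    (hP : IsClosed (N \ P)) (hQ : IsClosed (((L ∩ N) \ Q) ∪ Lᶜ)) (hd : Disjoint P Q)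
    (hPne : P.Nonempty) (hQne : Q.Nonempty) :
    ∃ y ∈ L \ N, (closure (connectedComponentIn (L \ N) y) ∩ P).Nonempty ∧
      (closure (connectedComponentIn (L \ N) y) ∩ Q).Nonempty := by
  by_contra hcon
  push Not at hcon
  have hPL : P ⊆ L ∩ N := by rw [hPQ]; exact subset_union_left
  have hQL : Q ⊆ L ∩ N := by rw [hPQ]; exact subset_union_right
  set A : Set X := P ∪ {y | y ∈ L \ N ∧ (closure (connectedComponentIn (L \ N) y) ∩ P).Nonempty}
    with hAdef
  set A' : Set X := Q ∪ {y | y ∈ L \ N ∧ ¬ (closure (connectedComponentIn (L \ N) y) ∩ P).Nonempty}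
    with hA'def
  have hAA' : A ∪ A' = L := by
    ext z
    constructor
    · rintro ((h | h) | (h | h))
      · exact (hPL h).1
      · exact h.1.1
      · exact (hQL h).1
      · exact h.1.1
    · intro hz
      by_cases hzN : z ∈ N
      · have : z ∈ P ∪ Q := by rw [← hPQ]; exact ⟨hz, hzN⟩
        rcases this with h | h
        · exact Or.inl (Or.inl h)
        · exact Or.inr (Or.inl h)
      · by_cases h : (closure (connectedComponentIn (L \ N) z) ∩ P).Nonempty
        · exact Or.inl (Or.inr ⟨⟨hz, hzN⟩, h⟩)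
        · exact Or.inr (Or.inr ⟨⟨hz, hzN⟩, h⟩)
  have hdisj : ∀ z ∈ A, z ∉ A' := by
    rintro z (h | h) (h' | h')
    · exact Set.disjoint_left.1 hd h h'
    · exact h'.1.2 (hPL h).2
    · exact h.1.2 (hQL h').2
    · exact h'.2 h.2
  -- components are constant
  have hcomp : ∀ z ∈ L \ N, ∀ w ∈ connectedComponentIn (L \ N) z,
      w ∈ L \ N ∧ connectedComponentIn (L \ N) w = connectedComponentIn (L \ N) z := by
    intro z _ w hw
    exact ⟨connectedComponentIn_subset _ _ hw, (connectedComponentIn_eq hw).symm⟩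
  have hAo : IsOpen A := by
    rw [isOpen_iff_mem_nhds]
    rintro x (hx | hx)
    · have hO : IsOpen (L ∩ (N \ P)ᶜ) := hL.inter hP.isOpen_compl
      obtain ⟨V, hVs, hVo, hVc, hxV⟩ := exists_conn_nhd hO
        (show x ∈ L ∩ (N \ P)ᶜ from ⟨(hPL hx).1, fun h => h.2 hx⟩)
      refine mem_of_superset (hVo.mem_nhds hxV) ?_
      intro v hv
      by_cases hvN : v ∈ N
      · left
        by_contra hvP
        exact (hVs hv).2 ⟨hvN, hvP⟩
      · right
        refine ⟨⟨(hVs hv).1, hvN⟩, ?_⟩
        obtain ⟨z, ⟨hzV, hzN⟩, hz⟩ := exists_limit_in hL hN (fun v hv => (hVs hv).1) hVc hxV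
          (hPL hx).2 hv hvN
        refine ⟨z, hz, ?_⟩
        by_contra hzP
        exact (hVs hzV).2 ⟨hzN, hzP⟩
    · refine mem_of_superset (((hL.sdiff hN).connectedComponentIn).mem_nhds
        (mem_connectedComponentIn hx.1)) ?_
      intro w hw
      obtain ⟨h1, h2⟩ := hcomp x hx.1 w hw
      refine Or.inr ⟨h1, ?_⟩
      rw [h2]
      exact hx.2
  have hA'o : IsOpen A' := by
    rw [isOpen_iff_mem_nhds]
    rintro x (hx | hx)
    · have hO : IsOpen (((L ∩ N) \ Q) ∪ Lᶜ)ᶜ := hQ.isOpen_compl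
      obtain ⟨V, hVs, hVo, hVc, hxV⟩ := exists_conn_nhd hO
        (show x ∈ (((L ∩ N) \ Q) ∪ Lᶜ)ᶜ by
          rintro (h | h)
          · exact h.2 hx
          · exact h (hQL hx).1)
      have hVL : V ⊆ L := by
        intro v hv
        by_contra h
        exact hVs hv (Or.inr h)
      have hVQ : ∀ v ∈ V, v ∈ N → v ∈ Q := by
        intro v hv hvN
        by_contra h
        exact hVs hv (Or.inl ⟨⟨hVL hv, hvN⟩, h⟩)
      refine mem_of_superset (hVo.mem_nhds hxV) ?_
      intro v hv
      by_cases hvN : v ∈ N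
      · exact Or.inl (hVQ v hv hvN)
      · right
        refine ⟨⟨hVL hv, hvN⟩, ?_⟩
        intro hP'
        obtain ⟨z, ⟨hzV, hzN⟩, hz⟩ := exists_limit_in hL hN hVL hVc hxV
          (hQL hx).2 hv hvN
        have := hcon v ⟨hVL hv, hvN⟩ hP'
        have hne : (closure (connectedComponentIn (L \ N) v) ∩ Q).Nonempty :=
          ⟨z, hz, hVQ z hzV hzN⟩
        exact hne.ne_empty this
    · refine mem_of_superset (((hL.sdiff hN).connectedComponentIn).mem_nhds
        (mem_connectedComponentIn hx.1)) ?_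
      intro w hw
      obtain ⟨h1, h2⟩ := hcomp x hx.1 w hw
      refine Or.inr ⟨h1, ?_⟩
      rw [h2]
      exact hx.2
  obtain ⟨p, hp⟩ := hPne
  obtain ⟨q, hq⟩ := hQne
  obtain ⟨w, -, hw1, hw2⟩ := hLc A A' hAo hA'o (by rw [hAA'])
    ⟨p, (hPL hp).1, Or.inl hp⟩ ⟨q, (hQL hq).1, Or.inl hq⟩
  exact hdisj w hw1 hw2

end bridge

section bridge2

variable {X : Type} [MetricSpace X] [CompactSpace X] [PreconnectedSpace X]

/-- The bridging lemma. -/
theorem exists_bridge (hA : PropA X) {ε : ℝ} (h : Haven X ε) {γ : ℝ → X} {α β : ℝ}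
    (hγc : ContinuousOn γ (Icc α β)) (hγi : InjOn γ (Icc α β)) (hγN : ∀ t ∈ Icc α β, γ t ∈ h.N)
    (hγo : ∀ a b, α ≤ a → a < b → b ≤ β → IsClosed (h.N \ γ '' Ioo a b))
    {a b : ℝ} (ha : α ≤ a) (hab : a < b) (hb : b ≤ β) {H : Set X} (hH : IsClosed H)
    (hHd : Disjoint H (γ '' Icc a b)) :
    ∃ u v, a < u ∧ u < v ∧ v < b ∧ ∃ B : Set X, IsCompact B ∧ IsConnected B ∧
      B ∩ h.N = {γ u, γ v} ∧ Disjoint B H := by
  classical
  have := locallyConnectedSpace_of_propA hA
  set a' := (2 * a + b) / 3 with ha'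
  set b' := (a + 2 * b) / 3 with hb'
  have haa' : a < a' := by rw [ha']; linarith
  have hab' : a' < b' := by rw [ha', hb']; linarith
  have hbb' : b' < b := by rw [hb']; linarith
  set K : Set X := γ '' Icc a' b' with hK
  have hsub1 : Icc a' b' ⊆ Icc α β := Icc_subset_Icc (by linarith) (by linarith)
  have hKc : IsCompact K := isCompact_Icc.image_of_continuousOn (hγc.mono hsub1)
  set Γ : Set X := (h.N \ γ '' Ioo a b) ∪ H with hΓ
  have hΓc : IsClosed Γ := (hγo a b ha hab hb).union hH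
  have hKΓ : Disjoint K Γ := by
    rw [Set.disjoint_left]
    rintro _ ⟨t, ht, rfl⟩ (hz | hz)
    · exact hz.2 ⟨t, ⟨by linarith [ht.1], by linarith [ht.2]⟩, rfl⟩
    · exact Set.disjoint_left.1 hHd hz ⟨t, ⟨by linarith [ht.1], by linarith [ht.2]⟩, rfl⟩
  obtain ⟨r, hr, hrK⟩ := Metric.exists_pos_forall_lt_edist hKc hΓc hKΓ
  have hrK' : ∀ x ∈ K, ∀ y ∈ Γ, (r : ℝ) < dist x y := by
    intro x hx y hy
    have := hrK x hx y hy
    rw [edist_dist, ← ENNReal.ofReal_coe_nnreal] at this
    exact (ENNReal.ofReal_lt_ofReal_iff_of_nonneg r.2).1 this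
  have hr' : (0 : ℝ) < r := hr
  obtain ⟨F₀, hF₀⟩ := h.small hA hr'
  have hfin : {t ∈ Icc α β | γ t ∈ F₀}.Finite := by
    apply Set.Finite.of_finite_image (f := γ)
    · exact F₀.finite_toSet.subset (by rintro _ ⟨t, ht, rfl⟩; exact ht.2)
    · exact hγi.mono (sep_subset _ _)
  obtain ⟨s, s', has, hss, hsb, hsd⟩ := exists_Icc_avoid hab' hfin
  have hsub2 : Icc s s' ⊆ Icc a' b' := Icc_subset_Icc has.le hsb.le
  have hsub3 : Icc s s' ⊆ Icc α β := hsub2.trans hsub1
  set F : Finset X := F₀ ∪ {γ s, γ s'} with hF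
  have hsm : s ∈ Icc s s' := ⟨le_rfl, hss.le⟩
  have hsm' : s' ∈ Icc s s' := ⟨hss.le, le_rfl⟩
  set L := h.L F with hL
  have hLsub : L ⊆ h.L F₀ := h.mono Finset.subset_union_left
  set P : Set X := γ '' Ioo s s' with hP
  set Q : Set X := (L ∩ h.N) \ P with hQ
  have hIooIcc : Ioo s s' ⊆ Icc α β := Ioo_subset_Icc_self.trans hsub3
  have hPF : ∀ z ∈ P, z ∉ F := by
    rintro _ ⟨t, ht, rfl⟩ hmem
    rw [hF, Finset.mem_union, Finset.mem_insert, Finset.mem_singleton] at hmem
    rcases hmem with h1 | h1 | h1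
    · exact Set.disjoint_left.1 hsd (Ioo_subset_Icc_self ht) ⟨hIooIcc ht, h1⟩
    · exact ht.1.ne' (hγi (hIooIcc ht) (hsub3 hsm) h1)
    · exact ht.2.ne (hγi (hIooIcc ht) (hsub3 hsm') h1)
  have hPL : P ⊆ L := by
    rintro z hz
    have hzN : z ∈ h.N := by
      obtain ⟨t, ht, rfl⟩ := hz
      exact hγN t (hIooIcc ht)
    exact h.mem_L (hPF z hz) hzN
  have hPN : P ⊆ h.N := by
    rintro _ ⟨t, ht, rfl⟩
    exact hγN t (hIooIcc ht)
  obtain ⟨y, ⟨hyL, hyN⟩, ⟨p, hpcl, hpP⟩, ⟨q, hqcl, hqQ⟩⟩ := exists_component_between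
    (L := L) (N := h.N) (P := P) (Q := Q) (h.isOpen_L F) (h.preconn F) h.isClosed_N
    (by rw [hQ, union_sdiff_cancel]; exact fun z hz => ⟨hPL hz, hPN hz⟩)
    (hγo s s' (by linarith) hss (by linarith))
    (by
      have h1 : ((L ∩ h.N) \ Q) ∪ Lᶜ = γ '' Icc s s' ∪ Lᶜ := by
        ext z
        constructor
        · rintro (⟨hz1, hz2⟩ | hz)
          · left
            by_contra hz3
            apply hz2
            refine ⟨hz1, ?_⟩
            rintro ⟨t, ht, rfl⟩
            exact hz3 ⟨t, Ioo_subset_Icc_self ht, rfl⟩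
          · exact Or.inr hz
        · rintro (⟨t, ht, rfl⟩ | hz)
          · by_cases htL : γ t ∈ L
            · left
              refine ⟨⟨htL, hγN t (hsub3 ht)⟩, ?_⟩
              rintro ⟨-, hz⟩
              apply hz
              have hts : t ≠ s := by
                rintro rfl
                exact h.sub F htL (by
                  rw [hF]
                  simp)
              have hts' : t ≠ s' := by
                rintro rfl
                exact h.sub F htL (by
                  rw [hF]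
                  simp)
              exact ⟨t, ⟨lt_of_le_of_ne ht.1 hts.symm, lt_of_le_of_ne ht.2 hts'⟩, rfl⟩
            · exact Or.inr htL
          · exact Or.inr hz
      rw [h1]
      exact (isCompact_Icc.image_of_continuousOn (hγc.mono hsub3)).isClosed.union
        (h.isOpen_L F).isClosed_compl)
    (by
      rw [Set.disjoint_left]
      intro z hz hz'
      exact hz'.2 hz)
    ⟨γ ((s + s') / 2), (s + s') / 2, ⟨by linarith, by linarith⟩, rfl⟩
    (by
      -- a point of the arc beyond `s'` and outside `F`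
      have hfinF : {t ∈ Icc α β | γ t ∈ F}.Finite := by
        apply Set.Finite.of_finite_image (f := γ)
        · exact F.finite_toSet.subset (by rintro _ ⟨t, ht, rfl⟩; exact ht.2)
        · exact hγi.mono (sep_subset _ _)
      obtain ⟨t, ht1, ht2⟩ : ∃ t ∈ Ioo s' b', t ∉ {t ∈ Icc α β | γ t ∈ F} := by
        by_contra hcon
        push Not at hcon
        exact (Ioo_infinite hsb) (hfinF.subset hcon)
      have htI : t ∈ Icc α β := ⟨by linarith [ht1.1], by linarith [ht1.2]⟩
      have htF : γ t ∉ F := fun hmem => ht2 ⟨htI, hmem⟩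
      refine ⟨γ t, ⟨h.mem_L htF (hγN t htI), hγN t htI⟩, ?_⟩
      rintro ⟨w, hw, hwt⟩
      have := hγi (hIooIcc hw) htI hwt
      rw [this] at hw
      linarith [hw.2, ht1.1])
  -- the component between
  set G := connectedComponentIn (L \ h.N) y with hG
  have hGo : IsOpen G := ((h.isOpen_L F).sdiff h.isClosed_N).connectedComponentIn
  have hGsub : G ⊆ L \ h.N := connectedComponentIn_subset _ _
  have hyG : y ∈ G := mem_connectedComponentIn ⟨hyL, hyN⟩
  have hGd : Metric.diam (closure G) ≤ r := by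
    rw [Metric.diam_closure]
    exact hF₀ G isPreconnected_connectedComponentIn
      (fun z hz => ⟨hLsub (hGsub hz).1, (hGsub hz).2⟩)
  obtain ⟨w, hw, rfl⟩ := hpP
  have hwK : γ w ∈ K := ⟨w, hsub2 (Ioo_subset_Icc_self hw), rfl⟩
  have hnotΓ : ∀ z ∈ closure G, z ∉ Γ := by
    intro z hz hzΓ
    have h1 := hrK' _ hwK z hzΓ
    have h2 := dist_le_diam hpcl hz
    linarith
  have hq' : q ∈ γ '' Ioo a b := by
    by_contra hcon
    exact hnotΓ q hqcl (Or.inl ⟨hqQ.1.2, hcon⟩)
  obtain ⟨w', hw', rfl⟩ := hq'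
  have hww' : w ≠ w' := by
    rintro rfl
    exact hqQ.2 ⟨w, hw, rfl⟩
  set S : Set X := insert (γ w) (insert (γ w') G) with hS
  have hGS : G ⊆ S := fun z hz => Or.inr (Or.inr hz)
  have hGk : G ⊆ kap S y := fun z hz =>
    CRel.mono hGS (crel_of_isOpen hA hGo isPreconnected_connectedComponentIn hyG hz)
  have h1 : γ w ∈ kap S y := mem_kap_of_mem_closure hA (Or.inl rfl) (closure_mono hGk hpcl)
  have h2 : γ w' ∈ kap S y :=
    mem_kap_of_mem_closure hA (Or.inr (Or.inl rfl)) (closure_mono hGk hqcl)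
  obtain ⟨B, hBS, hBc, hBcon, hwB, hw'B⟩ := (CRel.symm h1).trans h2
  have hBN : B ∩ h.N = {γ w, γ w'} := by
    ext z
    constructor
    · rintro ⟨hzB, hzN⟩
      rcases hBS hzB with hz | hz | hz
      · exact Or.inl hz
      · exact Or.inr hz
      · exact absurd hzN (hGsub hz).2
    · rintro (hz | hz)
      · rw [hz]
        exact ⟨hwB, hPN ⟨w, hw, rfl⟩⟩
      · rw [mem_singleton_iff.1 hz]
        exact ⟨hw'B, hqQ.1.2⟩
  have hBH : Disjoint B H := by
    rw [Set.disjoint_left]
    intro z hzB hzH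
    apply hnotΓ z _ (Or.inr hzH)
    rcases hBS hzB with hz | hz | hz
    · rw [hz]; exact hpcl
    · rw [hz]; exact hqcl
    · exact subset_closure hz
  have hwab : w ∈ Ioo a b := ⟨by linarith [hw.1], by linarith [hw.2]⟩
  rcases lt_or_gt_of_ne hww' with hlt | hlt
  · exact ⟨w, w', hwab.1, hlt, hw'.2, B, hBc, hBcon, hBN, hBH⟩
  · exact ⟨w', w, hw'.1, hlt, hwab.2, B, hBc, hBcon, by rw [hBN, pair_comm], hBH⟩

end bridge2

end Pool.Agent.ContA
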