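import Pool.Agent.ContA.KK

set_option autoImplicit false

open Set Metric Filter Topology

namespace Pool.Agent.ContA

section fusion

/-- Three distinct reals have a middle one. -/
theorem exists_middle {c : Fin 3 → ℝ} (hc : Function.Injective c) :
    ∃ i j k, j ≠ i ∧ k ≠ i ∧ c j < c i ∧ c i < c k := by
  have h01 : c 0 ≠ c 1 := fun h => absurd (hc h) (by decide)
  have h02 : c 0 ≠ c 2 := fun h => absurd (hc h) (by decide)
  have h12 : c 1 ≠ c 2 := fun h => absurd (hc h) (by decide)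
  rcases lt_or_gt_of_ne h01 with h | h
  · rcases lt_or_gt_of_ne h12 with g | g
    · exact ⟨1, 0, 2, by decide, by decide, h, g⟩
    · rcases lt_or_gt_of_ne h02 with f | f
      · exact ⟨2, 0, 1, by decide, by decide, f, g⟩
      · exact ⟨0, 2, 1, by decide, by decide, f, h⟩
  · rcases lt_or_gt_of_ne h02 with f | f
    · exact ⟨0, 1, 2, by decide, by decide, h, f⟩
    · rcases lt_or_gt_of_ne h12 with g | g
      · exact ⟨2, 1, 0, by decide, by decide, g, f⟩
      · exact ⟨1, 2, 0, by decide, by decide, g, h⟩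

variable {X : Type} [MetricSpace X]
variable {S : Set X} {Mf : Set X × Set X → ℕ → Set (Set X)}
  {Lf : Set X × Set X → ℕ → Set (Set X × Set X)}

/-- In a chart region no state has a triple. -/
theorem not_TP [CompactSpace X] (h : IsRefFun S Mf Lf) {r : (Set X × Set X) × ℕ}
    (hr : IsLink S r.1.1 r.1.2) {U : Set X} {φ : X → ℝ}
    (hφ : ContinuousOn φ (U ∩ KK Mf Lf r))
    (hφ' : ∀ x ∈ U ∩ KK Mf Lf r, ∀ y ∈ U ∩ KK Mf Lf r,
      (φ x = φ y ↔ x = y ∨ ∃ M ∈ nod Mf Lf r, x ∈ M ∧ y ∈ M))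
    {e : (Set X × Set X) × ℕ} (hre : Desc Lf r e) (heU : closure e.1.1 ⊆ U) :
    ¬ TP S e.1.1 := by
  intro hTP
  have hle := desc_link h hr hre
  have hRe := h e.1 e.2 hle
  obtain ⟨m, hmM, hminj, hR2⟩ := hRe.R2 hTP
  have hnode : ∀ m' ∈ Mf e.1 e.2, m' ∈ nod Mf Lf r := fun m' hm' =>
    nod_mono hre (subset_nod hm')
  have hin : ∀ m' ∈ Mf e.1 e.2, m' ⊆ U ∩ KK Mf Lf r := by
    intro m' hm' x hx
    exact ⟨heU (subset_closure ((hRe.Mprop m' hm').2.2 hx)), nod_subset_KK (hnode m' hm') hx⟩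
  have hne : ∀ i, ∃ p, p ∈ m i := fun i => (hRe.Mprop _ (hmM i)).2.1.nonempty
  choose p hp using hne
  have hconst : ∀ m' ∈ Mf e.1 e.2, ∀ x ∈ m', ∀ y ∈ m', φ x = φ y := fun m' hm' x hx y hy =>
    (hφ' x (hin m' hm' hx) y (hin m' hm' hy)).2 (Or.inr ⟨m', hnode m' hm', hx, hy⟩)
  have hS : ∀ m' ∈ nod Mf Lf r, ∀ x ∈ m', x ∈ S := fun m' hm' x hx =>
    hr.sub ((nod_prop h hr hm').2.2 hx)
  -- a point of the region with the same value as `m'` lies in `m'`
  have hval : ∀ m' ∈ Mf e.1 e.2, ∀ x ∈ m', ∀ y ∈ U ∩ KK Mf Lf r, φ y = φ x → y ∈ m' := by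
    intro m' hm' x hx y hy he
    rcases (hφ' y hy x (hin m' hm' hx)).1 he with rfl | ⟨M, hM, hyM, hxM⟩
    · exact hx
    · have : M = m' := nod_rel h hr hM (hnode m' hm') hxM hx (CRel.refl (hS M hM x hxM))
      rwa [← this]
  set c : Fin 3 → ℝ := fun i => φ (p i) with hc
  have hcinj : Function.Injective c := by
    intro i j hij
    apply hminj
    have h1 : p j ∈ m i := hval _ (hmM i) (p i) (hp i) (p j) (hin _ (hmM j) (hp j)) hij.symm
    exact nod_rel h hr (hnode _ (hmM i)) (hnode _ (hmM j)) h1 (hp j)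
      (CRel.refl (hS _ (hnode _ (hmM j)) _ (hp j)))
  obtain ⟨i, j, k, hji, hki, hlt1, hlt2⟩ := exists_middle hcinj
  have hfin := hR2 i {x | x ∈ U ∩ KK Mf Lf r ∧ φ x < c i} (by
    intro m' hm' _
    obtain ⟨q, hq⟩ := (hRe.Mprop m' hm').2.1.nonempty
    by_cases hlt : φ q < c i
    · left
      intro x hx
      refine ⟨hin m' hm' hx, ?_⟩
      rw [hconst m' hm' x hx q hq]
      exact hlt
    · right
      rw [Set.disjoint_left]
      rintro x hx ⟨-, hx2⟩
      rw [hconst m' hm' x hx q hq] at hx2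
      exact hlt hx2) (by
    intro l hl hdl
    set b : (Set X × Set X) × ℕ := (l, e.2 + 1) with hb
    have hch : Ch Lf e b := ⟨hl, rfl⟩
    have hrb : Desc Lf r b := Relation.ReflTransGen.tail hre hch
    have hlb := desc_link h hr hrb
    have h1 : KK Mf Lf b ⊆ closure l.1 := KK_subset_closure h hlb
    have h2 : KK Mf Lf b ⊆ U ∩ KK Mf Lf r := fun x hx =>
      ⟨heU (closure_mono (hRe.Lsub l hl) (h1 hx)), KK_mono h hr hrb hx⟩
    have h3 : IsPreconnected (φ '' KK Mf Lf b) :=
      (isPreconnected_KK h hlb).image φ (hφ.mono h2)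
    have h4 : c i ∉ φ '' KK Mf Lf b := by
      rintro ⟨x, hx, hxi⟩
      have := hval _ (hmM i) (p i) (hp i) x (h2 hx) hxi
      exact Set.disjoint_left.1 hdl (h1 hx) this
    by_contra hcon
    push Not at hcon
    obtain ⟨g1, g2⟩ := hcon
    obtain ⟨y, hy, hyA⟩ := not_subset.1 g1
    obtain ⟨x, hx, hxA⟩ := not_disjoint_iff.1 g2
    have hyK : y ∈ KK Mf Lf b := W_subset_KK hy
    have hxK : x ∈ KK Mf Lf b := W_subset_KK hx
    have hy2 : c i ≤ φ y := by
      by_contra hlt
      exact hyA ⟨h2 hyK, not_le.1 hlt⟩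
    exact h4 (h3.Icc_subset ⟨x, hxK, rfl⟩ ⟨y, hyK, rfl⟩ ⟨hxA.2.le, hy2⟩)) j k hji hki (by
    intro x hx
    refine ⟨hin _ (hmM j) hx, ?_⟩
    rw [hconst _ (hmM j) x hx (p j) (hp j)]
    exact hlt1)
  have := (hfin (hp k)).2
  exact absurd this (not_lt.2 hlt2.le)

variable [CompactSpace X] [PreconnectedSpace X]

/-- If a state has no triple then its limit set stays inside the link. -/
theorem KK_subset_of_not_TP (hA : PropA X) (hB : PropB X) (h : IsRefFun S Mf Lf)
    {e : (Set X × Set X) × ℕ} (he : IsLink S e.1.1 e.1.2) (hTP : ¬ TP S e.1.1) :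
    KK Mf Lf e ⊆ e.1.1 ∪ e.1.2 := by
  intro y hy
  by_contra hyn
  have hyD : y ∉ e.1.1 := fun h => hyn (Or.inl h)
  have hyW : y ∉ e.1.2 := fun h => hyn (Or.inr h)
  have hy1 : y ∈ closure (⋃₀ (nod Mf Lf e)) := by
    rw [KK, closure_union, he.Wfin.isClosed.closure_eq] at hy
    exact hy.resolve_right hyW
  have step : ∀ b, (Desc Lf e b ∧ y ∈ closure (⋃₀ (nod Mf Lf b))) →
      ∃ c, Ch Lf b c ∧ (Desc Lf e c ∧ y ∈ closure (⋃₀ (nod Mf Lf c))) := by
    rintro b ⟨heb, hyb⟩
    have hlb := desc_link h he heb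
    have hRb := h b.1 b.2 hlb
    have hcl : IsClosed (⋃₀ (Mf b.1 b.2) ∪
        ⋃ l ∈ Lf b.1 b.2, closure (⋃₀ (nod Mf Lf (l, b.2 + 1)))) := by
      apply IsClosed.union
      · rw [sUnion_eq_biUnion]
        exact Set.Finite.isClosed_biUnion hRb.Mfin fun m hm => (hRb.Mprop m hm).1.isClosed
      · exact hRb.Lfin.isClosed_biUnion fun l _ => isClosed_closure
    have hsub : ⋃₀ (nod Mf Lf b) ⊆ ⋃₀ (Mf b.1 b.2) ∪
        ⋃ l ∈ Lf b.1 b.2, closure (⋃₀ (nod Mf Lf (l, b.2 + 1))) := by
      rintro x ⟨m, ⟨c, hbc, hm⟩, hx⟩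
      rcases Relation.ReflTransGen.cases_head hbc with rfl | ⟨d, hbd, hdc⟩
      · exact Or.inl ⟨m, hm, hx⟩
      · right
        have hd : d = (d.1, b.2 + 1) := Prod.ext rfl hbd.2
        rw [mem_iUnion₂]
        refine ⟨d.1, hbd.1, subset_closure ⟨m, ⟨c, ?_, hm⟩, hx⟩⟩
        rw [← hd]
        exact hdc
    rcases closure_minimal hsub hcl hyb with ⟨m, hm, hym⟩ | hy2
    · exact absurd (desc_sub h he heb ((hRb.Mprop m hm).2.2 hym)) hyD
    · obtain ⟨l, hl, hyl⟩ := mem_iUnion₂.1 hy2
      have hch : Ch Lf b (l, b.2 + 1) := ⟨hl, rfl⟩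
      exact ⟨(l, b.2 + 1), hch, Relation.ReflTransGen.tail heb hch, hyl⟩
  choose! f hf using step
  set b : ℕ → (Set X × Set X) × ℕ := fun n => f^[n] e with hb
  have hP : ∀ n, Desc Lf e (b n) ∧ y ∈ closure (⋃₀ (nod Mf Lf (b n))) := by
    intro n
    induction n with
    | zero => exact ⟨Desc.rfl, hy1⟩
    | succ n ih =>
      simp only [hb, Function.iterate_succ_apply']
      exact (hf _ ih).2
  have hch : ∀ n, Ch Lf (b n) (b (n + 1)) := by
    intro n
    have := (hf _ (hP n)).1
    simp only [hb, Function.iterate_succ_apply']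
    exact this
  have hlev : ∀ n, (b n).2 = e.2 + n := by
    intro n
    induction n with
    | zero => rfl
    | succ n ih => rw [(hch n).2, ih]; omega
  have hdesc : ∀ n k, Desc Lf (b n) (b (n + k)) := by
    intro n k
    induction k with
    | zero => exact Desc.rfl
    | succ k ih => exact Relation.ReflTransGen.tail ih (hch (n + k))
  have hlink : ∀ n, IsLink S (b n).1.1 (b n).1.2 := fun n => desc_link h he (hP n).1
  have hdec : ∀ n m, n ≤ m → (b m).1.1 ⊆ (b n).1.1 := by
    intro n m hnm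
    obtain ⟨k, rfl⟩ := Nat.exists_eq_add_of_le hnm
    exact desc_sub h (hlink n) (hdesc n k)
  have hycl : ∀ n, y ∈ closure (b n).1.1 := fun n =>
    closure_mono (sUnion_nod_subset h (hlink n)) (hP n).2
  have hsmall : ∀ ε > 0, ∀ N : ℕ, ∃ n ≥ N, 1 ≤ n ∧ closure (b n).1.1 ⊆ ball y ε := by
    intro ε hε N
    obtain ⟨K, hK⟩ := exists_nat_gt (1 / ε)
    refine ⟨max N K + 1, ?_, ?_, ?_⟩
    · exact (le_max_left N K).trans (Nat.le_succ _)
    · omega
    · intro z hz
      have h1 := dist_le_diam hz (hycl (max N K + 1))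
      rw [Metric.diam_closure] at h1
      have h2 := desc_diam h he (hP (max N K + 1)).1 (by rw [hlev]; omega)
      rw [hlev] at h2
      have h3 : (K : ℝ) ≤ ((e.2 + (max N K + 1) : ℕ) : ℝ) := by
        have : K ≤ e.2 + (max N K + 1) := by
          have := le_max_right N K
          omega
        exact_mod_cast this
      have h4 : (0 : ℝ) < ((e.2 + (max N K + 1) : ℕ) : ℝ) := by
        have : 0 < e.2 + (max N K + 1) := by omega
        exact_mod_cast this
      have h5 : (1 : ℝ) / ((e.2 + (max N K + 1) : ℕ) : ℝ) < ε := by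
        rw [div_lt_iff₀ h4]
        rw [div_lt_iff₀ hε] at hK
        have : (K : ℝ) * ε ≤ ((e.2 + (max N K + 1) : ℕ) : ℝ) * ε :=
          mul_le_mul_of_nonneg_right h3 hε.le
        rw [mul_comm ε]
        linarith
      rw [mem_ball]
      linarith
  -- a state with attaching points inside `D`
  obtain ⟨ε, hε, hεW⟩ := Metric.isOpen_iff.1 he.Wfin.isClosed.isOpen_compl y hyW
  obtain ⟨n, -, hn1, hnε⟩ := hsmall ε hε 0
  have hWn : (b n).1.2 ⊆ e.1.1 := by
    intro w hw
    rcases desc_W' h he (hP n).1 hw with h1 | h1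
    · exact absurd h1 (hεW (hnε ((hlink n).Wcl hw)))
    · exact h1
  obtain ⟨w, hw, w', hw', hww'⟩ := desc_two h he (hP n).1 (by rw [hlev]; omega)
  have hwrel : ¬ CRel S w w' := fun hr => hww' ((hlink n).Wrel w hw w' hw' hr)
  -- connect the attaching points away from `y`
  obtain ⟨E, hED, hEc, hwE, hw'E, m, hm, hEm⟩ := chain_lemma (C := e.1.1) (D := e.1.1)
    he.conn.isPreconnected (fun s => ∃ m ≥ n, Disjoint s (closure (b m).1.1)) (by
      rintro s t ⟨m, hm, h1⟩ ⟨m', hm', h2⟩ -
      refine ⟨max m m', hm.trans (le_max_left m m'), ?_⟩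
      rw [disjoint_union_left]
      exact ⟨h1.mono_right (closure_mono (hdec m _ (le_max_left m m'))),
        h2.mono_right (closure_mono (hdec m' _ (le_max_right m m')))⟩) (by
      intro u hu
      have huy : u ≠ y := fun h => hyD (h ▸ hu)
      have hd : 0 < dist u y / 2 := by
        have := dist_pos.2 huy
        positivity
      obtain ⟨N, hN, hNc, huN, hNn⟩ := locconn_subset hA hB he.conn.isPreconnected hu hd
      obtain ⟨m, hm, -, hmd⟩ := hsmall (dist u y / 2) hd n
      refine ⟨N, fun z hz => (hN hz).1, hNc, huN, hNn, m, hm, ?_⟩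
      rw [Set.disjoint_left]
      intro z hz hz'
      have h1 := mem_ball.1 (hN hz).2
      have h2 := mem_ball.1 (hmd hz')
      have h3 : dist u y ≤ dist u z + dist z y := dist_triangle _ _ _
      rw [dist_comm u z] at h3
      linarith) (hWn hw) (hWn hw')
  obtain ⟨z, hz⟩ := (hlink m).conn.nonempty
  have hzn : z ∈ (b n).1.1 := hdec n m hm hz
  have hDn : (b n).1.1 ⊆ e.1.1 := desc_sub h he (hP n).1
  have hkapz : Disjoint E (kap S z) :=
    (hEm.mono_right subset_closure).mono_right ((hlink m).sat z hz)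
  have hkapw : ∀ v ∈ (b n).1.2, Disjoint (b n).1.1 (kap S v) := by
    intro v hv
    rw [Set.disjoint_left]
    intro t ht htv
    exact Set.disjoint_left.1 (hlink n).Wd hv ((hlink n).sat t ht (CRel.symm htv))
  have hcn : ∀ v ∈ (b n).1.2, IsPreconnected ((b n).1.1 ∪ {v}) := by
    intro v hv
    apply (hlink n).conn.isPreconnected.subset_closure subset_union_left
    exact union_subset subset_closure (singleton_subset_iff.2 ((hlink n).Wcl hv))
  apply hTP
  refine ⟨![z, w, w'], ![E, (b n).1.1 ∪ {w'}, (b n).1.1 ∪ {w}], ?_, ?_⟩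
  · intro i
    fin_cases i
    · exact hDn hzn
    · exact hWn hw
    · exact hWn hw'
  · intro i
    fin_cases i
    · refine ⟨hEc, hED, hkapz, ?_⟩
      intro j hj
      fin_cases j
      · exact absurd rfl hj
      · exact hwE
      · exact hw'E
    · refine ⟨hcn w' hw', union_subset hDn (singleton_subset_iff.2 (hWn hw')), ?_, ?_⟩
      · show Disjoint ((b n).1.1 ∪ {w'}) (kap S w)
        rw [disjoint_union_left]
        exact ⟨hkapw w hw, disjoint_singleton_left.2 hwrel⟩
      · intro j hj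
        fin_cases j
        · exact Or.inl hzn
        · exact absurd rfl hj
        · exact Or.inr rfl
    · refine ⟨hcn w hw, union_subset hDn (singleton_subset_iff.2 (hWn hw)), ?_, ?_⟩
      · show Disjoint ((b n).1.1 ∪ {w}) (kap S w')
        rw [disjoint_union_left]
        exact ⟨hkapw w' hw', disjoint_singleton_left.2 fun hr => hwrel (CRel.symm hr)⟩
      · intro j hj
        fin_cases j
        · exact Or.inl hzn
        · exact Or.inr rfl
        · exact absurd rfl hj

/-- There are no links in a continuum with (A) and (B). -/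
theorem no_link (hA : PropA X) (hB : PropB X) {D W : Set X} (hl : IsLink S D W) : False := by
  have hex : ∀ (l : Set X × Set X) (n : ℕ), ∃ (M : Set (Set X)) (L : Set (Set X × Set X)),
      IsLink S l.1 l.2 → IsRef S l.1 l.2 (1 / ((n : ℝ) + 1)) M L := by
    intro l n
    by_cases h : IsLink S l.1 l.2
    · obtain ⟨M, L, hML⟩ := exists_ref hA hB h (δ := 1 / ((n : ℝ) + 1)) (by positivity)
      exact ⟨M, L, fun _ => hML⟩
    · exact ⟨∅, ∅, fun h' => absurd h' h⟩
  choose Mf Lf hML using hex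
  have h : IsRefFun S Mf Lf := fun l n hl => hML l n hl
  set r : (Set X × Set X) × ℕ := ((D, W), 0) with hr
  have hlr : IsLink S r.1.1 r.1.2 := hl
  obtain ⟨U, hU, ⟨x, hxU, hxK⟩, hsat, φ, hφ, hφ'⟩ := exists_arc_chart hA hB
    (nod_pairwiseDisjoint h hlr) (fun m hm => ⟨(nod_prop h hlr hm).1, (nod_prop h hlr hm).2.1⟩)
    (K := KK Mf Lf r) isClosed_closure (by
      obtain ⟨w, hw⟩ := hl.Wne
      exact ⟨w, W_subset_KK hw⟩)
  -- a state attached at a point of `U`
  obtain ⟨c, hrc, t, htc, htU⟩ : ∃ c, Desc Lf r c ∧ ∃ t ∈ c.1.2, t ∈ U := by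
    obtain ⟨t, htU, ht⟩ := mem_closure_iff.1 hxK U hU hxU
    rcases ht with ⟨m, ⟨b, hrb, hm⟩, htm⟩ | ht
    · have hmU : m ⊆ U := hsat m ⟨b, hrb, hm⟩ ⟨t, htm, htU⟩
      obtain ⟨c, hbc, s, hs, hsm⟩ := exists_child_of_node h (desc_link h hlr hrb) hm
      exact ⟨c, Relation.ReflTransGen.tail hrb hbc, s, hs, hmU hsm⟩
    · exact ⟨r, Desc.rfl, t, ht, htU⟩
  obtain ⟨ε, hε, hεU⟩ := Metric.isOpen_iff.1 hU t htU
  obtain ⟨K, hK⟩ := exists_nat_gt (1 / ε)
  obtain ⟨e, hce, hte, hlev⟩ := exists_desc_of_mem h (desc_link h hlr hrc) htc (K + 1)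
  have hre : Desc Lf r e := hrc.trans hce
  have hle := desc_link h hlr hre
  have heU : closure e.1.1 ⊆ U := by
    intro z hz
    apply hεU
    have h1 := dist_le_diam hz (hle.Wcl hte)
    rw [Metric.diam_closure] at h1
    have h2 := desc_diam h hlr hre (by show 0 < e.2; omega)
    have h3 : (K : ℝ) ≤ (e.2 : ℝ) := by
      have : K ≤ e.2 := by omega
      exact_mod_cast this
    have h4 : (0 : ℝ) < (e.2 : ℝ) := by
      have : 0 < e.2 := by omega
      exact_mod_cast this
    have h5 : (1 : ℝ) / (e.2 : ℝ) < ε := by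
      rw [div_lt_iff₀ h4]
      rw [div_lt_iff₀ hε] at hK
      have : (K : ℝ) * ε ≤ (e.2 : ℝ) * ε := mul_le_mul_of_nonneg_right h3 hε.le
      rw [mul_comm ε]
      linarith
    rw [mem_ball]
    linarith
  have hTP := not_TP h hlr hφ hφ' hre heU
  have hKK := KK_subset_of_not_TP hA hB h hle hTP
  obtain ⟨m, hm⟩ := (h e.1 e.2 hle).Mne
  obtain ⟨-, hmc, hmD⟩ := (h e.1 e.2 hle).Mprop m hm
  obtain ⟨s, hs⟩ := hmc.nonempty
  have hrel : CRel S s t := by
    refine ⟨KK Mf Lf e, hKK.trans (union_subset hle.sub hle.WS), isClosed_closure.isCompact,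
      ⟨⟨t, W_subset_KK hte⟩, isPreconnected_KK h hle⟩, nod_subset_KK (subset_nod hm) hs,
      W_subset_KK hte⟩
  exact Set.disjoint_left.1 hle.Wd hte (hle.sat s (hmD hs) hrel)

/-- In a continuum with (A) and (B), any two points of a connected subset lie in a subcontinuum of
it. -/
theorem crel_of_isPreconnected (hA : PropA X) (hB : PropB X) (hS : IsPreconnected S) {p q : X}
    (hp : p ∈ S) (hq : q ∈ S) : CRel S p q := by
  by_contra hpq
  have hkU : kapU S {p} = kap S p := by
    ext x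
    simp [mem_kapU, mem_kap]
  have hq' : q ∈ S \ kapU S {p} := ⟨hq, by rw [hkU]; exact hpq⟩
  set D : Set X := connectedComponentIn (S \ kapU S {p}) q with hD
  have hDS : D ⊆ S \ kapU S {p} := connectedComponentIn_subset _ _
  have hex : ∃ w ∈ kap S p, w ∈ closure D := by
    by_contra hcon
    push Not at hcon
    -- `D` is clopen in `S`
    have hopen : ∀ x ∈ D, D ∈ 𝓝[S] x := by
      intro x hx
      have := component_mem_nhdsWithin hA hB Subset.rfl hS (finite_singleton p) (hDS hx)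
      rwa [← connectedComponentIn_eq hx] at this
    have hclosed : ∀ x ∈ S, x ∈ closure D → x ∈ D := by
      intro x hx hxD
      have hx' : x ∈ S \ kapU S {p} := ⟨hx, by rw [hkU]; exact fun h => hcon x h hxD⟩
      have h1 : IsPreconnected (D ∪ {x}) :=
        isPreconnected_connectedComponentIn.subset_closure subset_union_left
          (union_subset subset_closure (singleton_subset_iff.2 hxD))
      exact h1.subset_connectedComponentIn (Or.inl (mem_connectedComponentIn hq'))
        (union_subset hDS (singleton_subset_iff.2 hx')) (Or.inr rfl)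
    choose! O hO huO hOD using fun x hx => mem_nhdsWithin.1 (hopen x hx)
    obtain ⟨x, hxS, hx1, hx2⟩ := hS (⋃ x ∈ D, O x) (closure D)ᶜ
      (isOpen_biUnion fun x hx => hO x hx) isClosed_closure.isOpen_compl (by
        intro x hx
        by_cases hxD : x ∈ closure D
        · left
          have := hclosed x hx hxD
          exact mem_biUnion this (huO x this)
        · exact Or.inr hxD)
      ⟨q, hq, mem_biUnion (mem_connectedComponentIn hq') (huO q (mem_connectedComponentIn hq'))⟩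
      ⟨p, hp, fun hpD => hcon p (self_mem_kap hp) hpD⟩
    obtain ⟨d, hd, hxd⟩ := mem_iUnion₂.1 hx1
    exact hx2 (subset_closure (hOD d hd ⟨hxd, hxS⟩))
  obtain ⟨w, hw, hwD⟩ := hex
  refine no_link hA hB (S := S) (D := D) (W := {w}) ?_
  constructor
  · exact isConnected_connectedComponentIn_iff.2 hq'
  · exact fun x hx => (hDS hx).1
  · intro x hx
    rw [hD, connectedComponentIn_eq hx]
    apply isPreconnected_kap.subset_connectedComponentIn (self_mem_kap (hDS hx).1)
    intro v hv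
    refine ⟨kap_subset hv, ?_⟩
    intro hvp
    apply (hDS hx).2
    rw [hkU] at hvp ⊢
    exact CRel.trans hvp (CRel.symm hv)
  · exact finite_singleton w
  · exact singleton_nonempty w
  · exact singleton_subset_iff.2 (kap_subset hw)
  · rw [disjoint_singleton_left]
    intro hwD'
    apply (hDS hwD').2
    rw [hkU]
    exact hw
  · exact singleton_subset_iff.2 hwD
  · intro a ha b hb _
    rw [mem_singleton_iff.1 ha, mem_singleton_iff.1 hb]

end fusion

end Pool.Agent.ContA
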