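import Pool.Agent.ContA.Quot

set_option autoImplicit false

open Set Metric Filter Topology

namespace Pool.Agent.ContA

section gen

variable {X : Type*} [TopologicalSpace X]

/-- Components of `F` are relatively closed in `F`. -/
theorem mem_component_of_mem_closure {F : Set X} {x y : X} (hx : x ∈ F)
    (hcl : x ∈ closure (connectedComponentIn F y)) : x ∈ connectedComponentIn F y := by
  have hne : (connectedComponentIn F y).Nonempty := closure_nonempty_iff.1 ⟨x, hcl⟩
  have hy : y ∈ F := connectedComponentIn_nonempty_iff.1 hne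
  have h1 : IsPreconnected (insert x (connectedComponentIn F y)) :=
    IsPreconnected.subset_closure isPreconnected_connectedComponentIn (subset_insert _ _)
      (insert_subset hcl subset_closure)
  have h2 : insert x (connectedComponentIn F y) ⊆ F :=
    insert_subset hx (connectedComponentIn_subset F y)
  exact h1.subset_connectedComponentIn (mem_insert_of_mem _ (mem_connectedComponentIn hy)) h2
    (mem_insert _ _)

/-- A directed intersection of compact preconnected sets is preconnected. -/
theorem isPreconnected_iInter_of_directed [T2Space X] {ι : Type*} [Nonempty ι] {K : ι → Set X}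
    (hdir : Directed (· ⊇ ·) K) (hK : ∀ i, IsCompact (K i)) (hc : ∀ i, IsPreconnected (K i)) :
    IsPreconnected (⋂ i, K i) := by
  have hcl : ∀ i, IsClosed (K i) := fun i => (hK i).isClosed
  rw [isPreconnected_iff_subset_of_fully_disjoint_closed (isClosed_iInter hcl)]
  intro u v hu hv huv hd
  obtain ⟨i₀⟩ := ‹Nonempty ι›
  have hIc : IsCompact (⋂ i, K i) :=
    (hK i₀).of_isClosed_subset (isClosed_iInter hcl) (iInter_subset K i₀)
  have hu' : IsCompact ((⋂ i, K i) ∩ u) := hIc.inter_right hu
  have hv' : IsCompact ((⋂ i, K i) ∩ v) := hIc.inter_right hv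
  obtain ⟨U, V, hU, hV, hUu, hVv, hUV⟩ := SeparatedNhds.of_isCompact_isCompact hu' hv'
    (hd.mono inter_subset_right inter_subset_right)
  have hsub : (⋂ i, K i) ⊆ U ∪ V := by
    intro x hx
    rcases huv hx with h | h
    · exact Or.inl (hUu ⟨hx, h⟩)
    · exact Or.inr (hVv ⟨hx, h⟩)
  have : Nonempty ι := ⟨i₀⟩
  obtain ⟨i, hi⟩ := exists_subset_nhds_of_isCompact' hdir hK hcl
    (fun x hx => (hU.union hV).mem_nhds (hsub hx))
  rcases (isPreconnected_iff_subset_of_disjoint.1 (hc i)) U V hU hV hi
    (by rw [hUV.inter_eq, inter_empty]) with h | h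
  · left
    intro x hx
    rcases huv hx with h' | h'
    · exact h'
    · exact absurd (hVv ⟨hx, h'⟩) (Set.disjoint_left.1 hUV (h (iInter_subset K i hx)))
  · right
    intro x hx
    rcases huv hx with h' | h'
    · exact absurd (h (iInter_subset K i hx)) (Set.disjoint_left.1 hUV (hUu ⟨hx, h'⟩))
    · exact h'

end gen

section haven

variable {X : Type} [MetricSpace X] [CompactSpace X]

/-- Existence of a haven. -/
theorem exists_haven (hA : PropA X) {ε : ℝ} (hε : 0 < ε)
    (h : ∀ F : Finset X, ∃ C : Set X, IsPreconnected C ∧ Disjoint C (F : Set X) ∧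
      ε < Metric.diam C) :
    ∃ L : Finset X → Set X,
      (∀ F, ∃ x, x ∉ F ∧ L F = connectedComponentIn ((F : Set X)ᶜ) x) ∧
      (∀ F, ε < Metric.diam (L F)) ∧ ∀ F G, (L F ∩ L G).Nonempty := by
  classical
  choose C hC1 hC2 hC3 using h
  have hne : ∀ F, (C F).Nonempty := by
    intro F
    rw [Set.nonempty_iff_ne_empty]
    intro h0
    have := hC3 F
    rw [h0, Metric.diam_empty] at this
    linarith
  choose c hc using hne
  set V : Ultrafilter X := Ultrafilter.map c (Ultrafilter.of atTop) with hV
  have hfin : ∀ F : Finset X, ((fun x => connectedComponentIn ((F : Set X)ᶜ) x) ''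
      {x | x ∉ F ∧ ε < Metric.diam (connectedComponentIn ((F : Set X)ᶜ) x)}).Finite := by
    intro F
    apply hA ε hε _ (pairwiseDisjoint_components _ _)
    rintro _ ⟨x, ⟨hx1, hx2⟩, rfl⟩
    exact ⟨isConnected_connectedComponentIn_iff.2 hx1, hx2⟩
  have hmem : ∀ F : Finset X, ∃ T ∈ ((fun x => connectedComponentIn ((F : Set X)ᶜ) x) ''
      {x | x ∉ F ∧ ε < Metric.diam (connectedComponentIn ((F : Set X)ᶜ) x)}), T ∈ V := by
    intro F
    rw [← Ultrafilter.finite_sUnion_mem_iff (hfin F)]
    rw [hV, Ultrafilter.mem_map]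
    have h1 : {G : Finset X | F ⊆ G} ∈ (Ultrafilter.of (atTop : Filter (Finset X))) :=
      Ultrafilter.of_le _ (mem_atTop F)
    refine mem_of_superset h1 ?_
    intro G hG
    have hcG : c G ∉ F := by
      intro h
      exact Set.disjoint_left.1 (hC2 G) (hc G) (hG h)
    have hsub : C G ⊆ connectedComponentIn ((F : Set X)ᶜ) (c G) := by
      apply (hC1 G).subset_connectedComponentIn (hc G)
      intro z hz hzF
      exact Set.disjoint_left.1 (hC2 G) hz (hG hzF)
    refine ⟨connectedComponentIn ((F : Set X)ᶜ) (c G), ⟨c G, ⟨hcG, ?_⟩, rfl⟩, hsub (hc G)⟩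
    exact lt_of_lt_of_le (hC3 G)
      (Metric.diam_mono hsub (isCompact_univ.isBounded.subset (subset_univ _)))
  choose L hL hLV using hmem
  refine ⟨L, ?_, ?_, ?_⟩
  · intro F
    obtain ⟨x, ⟨hx, -⟩, e⟩ := hL F
    exact ⟨x, hx, e.symm⟩
  · intro F
    obtain ⟨x, ⟨-, hx⟩, e⟩ := hL F
    rw [← e]
    exact hx
  · intro F G
    exact Ultrafilter.nonempty_of_mem (inter_mem (hLV F) (hLV G))

/-- The structure of a haven. -/
structure Haven (X : Type) [MetricSpace X] (ε : ℝ) where
  /-- the chosen component -/
  L : Finset X → Set X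
  comp : ∀ F, ∃ x, x ∉ F ∧ L F = connectedComponentIn ((F : Set X)ᶜ) x
  diam : ∀ F, ε < Metric.diam (L F)
  inter : ∀ F G, (L F ∩ L G).Nonempty

namespace Haven

variable {ε : ℝ} (h : Haven X ε)

omit [CompactSpace X] in
theorem preconn (F : Finset X) : IsPreconnected (h.L F) := by
  obtain ⟨x, -, e⟩ := h.comp F
  rw [e]
  exact isPreconnected_connectedComponentIn

omit [CompactSpace X] in
theorem sub (F : Finset X) : h.L F ⊆ (F : Set X)ᶜ := by
  obtain ⟨x, -, e⟩ := h.comp F
  rw [e]
  exact connectedComponentIn_subset _ _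

omit [CompactSpace X] in
theorem mono {F G : Finset X} (hFG : F ⊆ G) : h.L G ⊆ h.L F := by
  obtain ⟨x, hx, e⟩ := h.comp F
  obtain ⟨z, hzF, hzG⟩ := h.inter F G
  rw [e] at hzF ⊢
  rw [connectedComponentIn_eq hzF]
  apply (h.preconn G).subset_connectedComponentIn hzG
  intro y hy hyF
  exact h.sub G hy (hFG hyF)

omit [CompactSpace X] in
theorem mem_of_closure {F : Finset X} {x : X} (hx : x ∉ F) (hcl : x ∈ closure (h.L F)) :
    x ∈ h.L F := by
  obtain ⟨y, hy, e⟩ := h.comp F
  rw [e] at hcl ⊢
  exact mem_component_of_mem_closure hx hcl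

omit [CompactSpace X] in
theorem isOpen_L [LocallyConnectedSpace X] (F : Finset X) : IsOpen (h.L F) := by
  obtain ⟨y, hy, e⟩ := h.comp F
  rw [e]
  exact F.finite_toSet.isClosed.isOpen_compl.connectedComponentIn

/-- The limit continuum of a haven. -/
def N : Set X := ⋂ F, closure (h.L F)

omit [CompactSpace X] in
theorem directed : Directed (· ⊇ ·) (fun F => closure (h.L F)) := by
  classical
  intro F G
  exact ⟨F ∪ G, closure_mono (h.mono Finset.subset_union_left),
    closure_mono (h.mono Finset.subset_union_right)⟩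

omit [CompactSpace X] in
theorem isClosed_N : IsClosed h.N := isClosed_iInter fun _ => isClosed_closure

theorem isCompact_N : IsCompact h.N := h.isClosed_N.isCompact

theorem isPreconnected_N : IsPreconnected h.N := by
  apply isPreconnected_iInter_of_directed h.directed
  · exact fun F => isClosed_closure.isCompact
  · exact fun F => (h.preconn F).closure

omit [CompactSpace X] in
theorem mem_L {F : Finset X} {x : X} (hx : x ∉ F) (hN : x ∈ h.N) : x ∈ h.L F :=
  h.mem_of_closure hx (mem_iInter.1 hN F)

/-- The limit continuum has two points at distance at least `ε`. -/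
theorem exists_far (hε : 0 ≤ ε) : ∃ a ∈ h.N, ∃ b ∈ h.N, ε ≤ dist a b := by
  set T : Finset X → Set (X × X) := fun F =>
    (closure (h.L F) ×ˢ closure (h.L F)) ∩ {p | ε ≤ dist p.1 p.2} with hT
  have hcl : ∀ F, IsClosed (T F) := fun F =>
    (isClosed_closure.prod isClosed_closure).inter
      (isClosed_le continuous_const (continuous_fst.dist continuous_snd))
  have hne : (⋂ F, T F).Nonempty := by
    apply IsCompact.nonempty_iInter_of_directed_nonempty_isCompact_isClosed
    · classical
      intro F G
      refine ⟨F ∪ G, ?_, ?_⟩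
      · exact inter_subset_inter_left _ (prod_mono
          (closure_mono (h.mono Finset.subset_union_left))
          (closure_mono (h.mono Finset.subset_union_left)))
      · exact inter_subset_inter_left _ (prod_mono
          (closure_mono (h.mono Finset.subset_union_right))
          (closure_mono (h.mono Finset.subset_union_right)))
    · intro F
      by_contra hcon
      have hle : Metric.diam (h.L F) ≤ ε := by
        apply Metric.diam_le_of_forall_dist_le hε
        intro a ha b hb
        by_contra hab
        exact hcon ⟨(a, b), ⟨subset_closure ha, subset_closure hb⟩, (not_le.1 hab).le⟩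
      exact absurd (h.diam F) (not_lt.2 hle)
    · exact fun F => (hcl F).isCompact
    · exact hcl
  obtain ⟨⟨a, b⟩, hab⟩ := hne
  rw [mem_iInter] at hab
  exact ⟨a, mem_iInter.2 fun F => (hab F).1.1, b, mem_iInter.2 fun F => (hab F).1.2,
    (hab ∅).2⟩

/-- Outside its limit continuum a haven has only small connected pieces, eventually. -/
theorem small (hA : PropA X) [PreconnectedSpace X] {δ : ℝ} (hδ : 0 < δ) :
    ∃ F : Finset X, ∀ C : Set X, IsPreconnected C → C ⊆ h.L F \ h.N → Metric.diam C ≤ δ := by
  classical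
  have := locallyConnectedSpace_of_propA hA
  by_contra hcon
  push Not at hcon
  -- replace the connected sets by continua
  have step : ∀ F : Finset X, ∃ B : Set X, IsCompact B ∧ IsConnected B ∧ B ⊆ h.L F ∧
      δ < Metric.diam B ∧ ∃ G : Finset X, F ⊆ G ∧ Disjoint B (h.L G) := by
    intro F
    obtain ⟨C, hC1, hC2, hC3⟩ := hcon F
    obtain ⟨a, ha, b, hb, hab⟩ : ∃ a ∈ C, ∃ b ∈ C, δ < dist a b := by
      by_contra hno
      push Not at hno
      exact absurd hC3 (not_lt.2 (Metric.diam_le_of_forall_dist_le hδ.le hno))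
    set G' := connectedComponentIn (h.L F \ h.N) a with hG'
    have hG'o : IsOpen G' :=
      ((h.isOpen_L F).sdiff h.isClosed_N).connectedComponentIn
    have hCG' : C ⊆ G' := hC1.subset_connectedComponentIn ha hC2
    obtain ⟨B, hBG, hBc, hBcon, haB, hbB⟩ :=
      crel_of_isOpen hA hG'o isPreconnected_connectedComponentIn (hCG' ha) (hCG' hb)
    have hBsub : B ⊆ h.L F \ h.N := hBG.trans (connectedComponentIn_subset _ _)
    refine ⟨B, hBc, hBcon, fun x hx => (hBsub hx).1, lt_of_lt_of_le hab (dist_le_diam haB hbB), ?_⟩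
    obtain ⟨G, hG⟩ := hBc.elim_directed_family_closed (fun F => closure (h.L F))
      (fun F => isClosed_closure) (by
        rw [← Set.disjoint_iff_inter_eq_empty, Set.disjoint_left]
        intro x hx hxN
        exact (hBsub hx).2 hxN) h.directed
    refine ⟨F ∪ G, Finset.subset_union_left, ?_⟩
    rw [← Set.disjoint_iff_inter_eq_empty] at hG
    exact hG.mono_right ((h.mono Finset.subset_union_right).trans subset_closure)
  choose B hBc hBcon hBL hBd G hFG hBG using step
  set Fs : ℕ → Finset X := fun n => Nat.rec ∅ (fun _ F => G F) n with hFs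
  have hFs1 : ∀ n, Fs (n + 1) = G (Fs n) := fun n => rfl
  have hmono : ∀ m n, m ≤ n → Fs m ⊆ Fs n := by
    intro m n hmn
    induction n, hmn using Nat.le_induction with
    | base => exact Finset.Subset.refl _
    | succ n _ ih => exact ih.trans (hFG (Fs n))
  have hdisj : ∀ m n, m < n → Disjoint (B (Fs m)) (B (Fs n)) := by
    intro m n hmn
    apply (hBG (Fs m)).mono_right
    exact (hBL (Fs n)).trans (h.mono (hmono (m + 1) n hmn))
  have hinj : Function.Injective fun n => B (Fs n) := by
    intro m n hmn
    have hmn' : B (Fs m) = B (Fs n) := hmn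
    by_contra hne
    rcases lt_or_gt_of_ne hne with hlt | hlt
    · have h1 := hdisj m n hlt
      rw [hmn', disjoint_self] at h1
      exact (hBcon (Fs n)).nonempty.ne_empty h1
    · have h1 := hdisj n m hlt
      rw [hmn', disjoint_self] at h1
      exact (hBcon (Fs n)).nonempty.ne_empty h1
  have hfin := hA δ hδ (range fun n => B (Fs n)) (by
    rintro _ ⟨m, rfl⟩ _ ⟨n, rfl⟩ hne
    have hmn : m ≠ n := fun e => hne (by rw [e])
    rcases lt_or_gt_of_ne hmn with hlt | hlt
    · exact hdisj m n hlt
    · exact (hdisj n m hlt).symm) (by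
    rintro _ ⟨n, rfl⟩
    exact ⟨hBcon _, hBd _⟩)
  exact (Set.infinite_range_of_injective hinj) hfin

end Haven

end haven

end Pool.Agent.ContA
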