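import Pool.Agent.ContA.Regular

set_option autoImplicit false

open Set Metric Filter Topology

namespace Pool.Agent.ContA

section locconn2

variable {X : Type} [MetricSpace X] [CompactSpace X] [PreconnectedSpace X]

/-- In a continuum with (A) and (B) every connected subset is locally connected. -/
theorem locconn_subset (hA : PropA X) (hB : PropB X) {S : Set X} (hS : IsPreconnected S) {x : X}
    (hx : x ∈ S) {ε : ℝ} (hε : 0 < ε) :
    ∃ N ⊆ S ∩ ball x ε, IsPreconnected N ∧ x ∈ N ∧ N ∈ 𝓝[S] x := by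
  classical
  have := locallyConnectedSpace_of_propA hA
  obtain ⟨F, hF⟩ := regular hA hB (show 0 < ε / 3 by positivity)
  set F₁ : Finset X := F.erase x with hF₁
  set V : Set X := connectedComponentIn ((F₁ : Set X)ᶜ) x with hV
  have hxF₁ : x ∈ ((F₁ : Set X)ᶜ) := by simp [hF₁]
  have hVo : IsOpen V := F₁.finite_toSet.isClosed.isOpen_compl.connectedComponentIn
  have hxV : x ∈ V := mem_connectedComponentIn hxF₁
  have hVc : IsPreconnected V := isPreconnected_connectedComponentIn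
  have hVF : V ⊆ ((F₁ : Set X)ᶜ) := connectedComponentIn_subset _ _
  have hVball : V ⊆ closedBall x (ε / 3) := by
    intro v hv
    by_cases hvx : v = x
    · rw [hvx]
      exact mem_closedBall_self (by positivity)
    set G := connectedComponentIn (V \ {x}) v with hG
    have hGd : Metric.diam G ≤ ε / 3 := by
      apply hF G isPreconnected_connectedComponentIn
      rw [Set.disjoint_left]
      intro z hz hzF
      have h1 := connectedComponentIn_subset _ _ hz
      exact hVF h1.1 (Finset.mem_coe.2 (Finset.mem_erase.2 ⟨h1.2, hzF⟩))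
    obtain ⟨z, ⟨-, hz1⟩, hz2⟩ := exists_limit_in hVo isClosed_singleton Subset.rfl hVc hxV
      (mem_singleton x) hv hvx
    rw [mem_singleton_iff.1 hz1] at hz2
    have h1 := dist_le_diam (subset_closure (mem_connectedComponentIn
      (show v ∈ V \ {x} from ⟨hv, hvx⟩))) hz2
    rw [Metric.diam_closure] at h1
    rw [mem_closedBall]
    linarith
  have hclball : closure V ⊆ closedBall x (ε / 3) := isClosed_closedBall.closure_subset_iff.2 hVball
  have hsubball : closedBall x (ε / 3) ⊆ ball x ε := closedBall_subset_ball (by linarith)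
  by_cases hSV : S ⊆ V
  · exact ⟨S, fun z hz => ⟨hz, hsubball (hVball (hSV hz))⟩, hS, hx, self_mem_nhdsWithin⟩
  obtain ⟨s₀, hs₀, hs₀V⟩ := Set.not_subset.1 hSV
  set T : Set X := S ∩ closure V with hT
  have hTV : ∀ z ∈ T, z ∉ V → z ∈ F₁ := by
    intro z hz hzV
    by_contra h
    exact hzV (mem_component_of_mem_closure h hz.2)
  -- clopen subsets of `T` reach the boundary
  have hreach : ∀ A O H : Set X, IsOpen O → IsClosed H → A = T ∩ O → A = T ∩ H → A.Nonempty →
      ∃ z ∈ A, z ∉ V := by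
    intro A O H hO hH hAO hAH hne
    by_contra hcon
    push Not at hcon
    obtain ⟨s, hs, hs1, hs2⟩ := hS (O ∩ V) (closure V ∩ H)ᶜ (hO.inter hVo)
      (isClosed_closure.inter hH).isOpen_compl
      (by
        intro s hs
        by_cases h : s ∈ closure V ∩ H
        · left
          have hsA : s ∈ A := by rw [hAH]; exact ⟨⟨hs, h.1⟩, h.2⟩
          refine ⟨?_, hcon s hsA⟩
          rw [hAO] at hsA
          exact hsA.2
        · exact Or.inr h)
      (by
        obtain ⟨a, ha⟩ := hne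
        have ha' := ha
        rw [hAO] at ha'
        exact ⟨a, ha'.1.1, ha'.2, hcon a ha⟩)
      ⟨s₀, hs₀, by
        intro h
        have hsA : s₀ ∈ A := by rw [hAH]; exact ⟨⟨hs₀, h.1⟩, h.2⟩
        exact hs₀V (hcon s₀ hsA)⟩
    have hsA : s ∈ A := by rw [hAO]; exact ⟨⟨hs, subset_closure hs1.2⟩, hs1.1⟩
    rw [hAH] at hsA
    exact hs2 ⟨hsA.1.2, hsA.2⟩
  -- a minimal clopen set
  set 𝒜 : Set (Set X) := {A | (∃ O, IsOpen O ∧ A = T ∩ O) ∧ (∃ H, IsClosed H ∧ A = T ∩ H) ∧ x ∈ A}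
    with h𝒜
  have hT𝒜 : T ∈ 𝒜 := ⟨⟨univ, isOpen_univ, (inter_univ T).symm⟩,
    ⟨univ, isClosed_univ, (inter_univ T).symm⟩, hx, subset_closure hxV⟩
  obtain ⟨A, ⟨⟨O, hO, hAO⟩, ⟨H, hH, hAH⟩, hxA⟩, hmin⟩ :=
    WellFounded.has_min (measure fun A : Set X => (A ∩ (F₁ : Set X)).ncard).wf 𝒜 ⟨T, hT𝒜⟩
  have key : ∀ u v : Set X, IsOpen u → IsOpen v → A ⊆ u ∪ v → ¬ (A ∩ (u ∩ v)).Nonempty → x ∈ u →
      (A ∩ v).Nonempty → False := by
    intro u v hu hv huv hemp hxu hne
    have hA1 : A ∩ u ∈ 𝒜 := by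
      refine ⟨⟨O ∩ u, hO.inter hu, ?_⟩, ⟨H ∩ vᶜ, hH.inter hv.isClosed_compl, ?_⟩, hxA, hxu⟩
      · rw [hAO, inter_assoc]
      · ext z
        constructor
        · rintro ⟨hzA, hzu⟩
          have hzA' := hzA
          rw [hAH] at hzA'
          exact ⟨hzA'.1, hzA'.2, fun hzv => hemp ⟨z, hzA, hzu, hzv⟩⟩
        · rintro ⟨hzT, hzH, hzv⟩
          have hzA : z ∈ A := by rw [hAH]; exact ⟨hzT, hzH⟩
          refine ⟨hzA, ?_⟩
          rcases huv hzA with h | h
          · exact h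
          · exact absurd h hzv
    obtain ⟨f, ⟨hfA, hfv⟩, hfV⟩ := hreach (A ∩ v) (O ∩ v) (H ∩ uᶜ) (hO.inter hv)
      (hH.inter hu.isClosed_compl) (by rw [hAO, inter_assoc]) (by
        ext z
        constructor
        · rintro ⟨hzA, hzv⟩
          have hzA' := hzA
          rw [hAH] at hzA'
          exact ⟨hzA'.1, hzA'.2, fun hzu => hemp ⟨z, hzA, hzu, hzv⟩⟩
        · rintro ⟨hzT, hzH, hzu⟩
          have hzA : z ∈ A := by rw [hAH]; exact ⟨hzT, hzH⟩
          refine ⟨hzA, ?_⟩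
          rcases huv hzA with h | h
          · exact absurd h hzu
          · exact h) hne
    have hfT : f ∈ T := by
      rw [hAO] at hfA
      exact hfA.1
    have hfF : f ∈ F₁ := hTV f hfT hfV
    apply hmin (A ∩ u) hA1
    show (A ∩ u ∩ (F₁ : Set X)).ncard < (A ∩ (F₁ : Set X)).ncard
    apply Set.ncard_lt_ncard _ (F₁.finite_toSet.subset inter_subset_right)
    refine ⟨fun z hz => ⟨hz.1.1, hz.2⟩, fun hsub => ?_⟩
    have := hsub ⟨hfA, Finset.mem_coe.2 hfF⟩
    exact hemp ⟨f, hfA, this.1.2, hfv⟩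
  refine ⟨A, ?_, ?_, hxA, ?_⟩
  · intro z hz
    rw [hAO] at hz
    exact ⟨hz.1.1, hsubball (hclball hz.1.2)⟩
  · intro u v hu hv huv hne1 hne2
    by_contra hemp
    rcases huv hxA with hxu | hxv
    · exact key u v hu hv huv hemp hxu hne2
    · refine key v u hv hu (by rwa [union_comm]) (by rwa [inter_comm v u]) hxv hne1
  · rw [mem_nhdsWithin]
    refine ⟨O ∩ V, hO.inter hVo, ⟨?_, hxV⟩, ?_⟩
    · rw [hAO] at hxA
      exact hxA.2
    · rintro z ⟨⟨hzO, hzV⟩, hzS⟩
      rw [hAO]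
      exact ⟨⟨hzS, subset_closure hzV⟩, hzO⟩

end locconn2

end Pool.Agent.ContA
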