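import Pool.Agent.ContA.Between

set_option autoImplicit false

open Set Metric Filter Topology

namespace Pool.Agent.ContA

section refine

variable {X : Type} [MetricSpace X]

/-- A link: a connected saturated subset `D` of `S` with finitely many attaching points `W`. -/
structure IsLink (S D W : Set X) : Prop where
  conn : IsConnected D
  sub : D ⊆ S
  sat : ∀ x ∈ D, kap S x ⊆ D
  Wfin : W.Finite
  Wne : W.Nonempty
  WS : W ⊆ S
  Wd : Disjoint W D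
  Wcl : W ⊆ closure D
  Wrel : ∀ w ∈ W, ∀ w' ∈ W, CRel S w w' → w = w'

/-- Existence of three components of `D`, none of which separates the other two in `D`. -/
def TP (S D : Set X) : Prop :=
  ∃ (z : Fin 3 → X) (C : Fin 3 → Set X), (∀ i, z i ∈ D) ∧ ∀ i, IsPreconnected (C i) ∧ C i ⊆ D ∧
    Disjoint (C i) (kap S (z i)) ∧ ∀ j, j ≠ i → z j ∈ C i

/-- A refinement of a link `(D, W)` with mesh `δ`. -/
structure IsRef (S D W : Set X) (δ : ℝ) (M : Set (Set X)) (L : Set (Set X × Set X)) : Prop where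
  Mne : M.Nonempty
  Mfin : M.Finite
  Mprop : ∀ m ∈ M, IsCompact m ∧ IsConnected m ∧ m ⊆ D
  Mrel : ∀ m ∈ M, ∀ m' ∈ M, ∀ x ∈ m, ∀ x' ∈ m', CRel S x x' → m = m'
  Lfin : L.Finite
  Llink : ∀ l ∈ L, IsLink S l.1 l.2
  Lsub : ∀ l ∈ L, l.1 ⊆ D
  Ldiam : ∀ l ∈ L, Metric.diam l.1 ≤ δ
  LM : ∀ l ∈ L, ∀ m ∈ M, Disjoint l.1 m
  Ldisj : ∀ l ∈ L, ∀ l' ∈ L, l ≠ l' → Disjoint l.1 l'.1
  LW : ∀ l ∈ L, l.2 ⊆ W ∪ ⋃₀ M
  Ltwo : ∀ l ∈ L, l.2.Nontrivial
  R1 : ∀ A : Set X, (∀ m ∈ M, m ⊆ A ∨ Disjoint m A) → (∀ l ∈ L, l.2 ⊆ A ∨ Disjoint l.2 A) →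
    (W ∪ ⋃₀ M ⊆ A) ∨ Disjoint (W ∪ ⋃₀ M) A
  R2 : TP S D → ∃ m : Fin 3 → Set X, (∀ i, m i ∈ M) ∧ Function.Injective m ∧
    ∀ i, ∀ A : Set X, (∀ m' ∈ M, m' ≠ m i → m' ⊆ A ∨ Disjoint m' A) →
      (∀ l ∈ L, Disjoint (closure l.1) (m i) → l.2 ⊆ A ∨ Disjoint l.2 A) →
      ∀ j k, j ≠ i → k ≠ i → m j ⊆ A → m k ⊆ A

/-- Representatives of the components of a finite set. -/
theorem exists_reps (S : Set X) {T : Set X} (hT : T.Finite) (hTS : T ⊆ S) :
    ∃ R ⊆ T, (∀ z ∈ T, ∃ z' ∈ R, CRel S z z') ∧ ∀ z ∈ R, ∀ z' ∈ R, CRel S z z' → z = z' := by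
  induction T, hT using Set.Finite.induction_on with
  | empty =>
    exact ⟨∅, Subset.rfl, fun z hz => absurd hz (notMem_empty z),
      fun z hz => absurd hz (notMem_empty z)⟩
  | @insert a T _ _ ih =>
    obtain ⟨R, h1, h2, h3⟩ := ih ((subset_insert a T).trans hTS)
    by_cases h : ∃ z' ∈ R, CRel S a z'
    · refine ⟨R, h1.trans (subset_insert a T), ?_, h3⟩
      rintro z (rfl | hz)
      · exact h
      · exact h2 z hz
    · refine ⟨insert a R, insert_subset_insert h1, ?_, ?_⟩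
      · rintro z (rfl | hz)
        · exact ⟨z, mem_insert _ _, CRel.refl (hTS (mem_insert _ _))⟩
        · obtain ⟨z', hz', hr⟩ := h2 z hz
          exact ⟨z', mem_insert_of_mem _ hz', hr⟩
      · rintro z (rfl | hz) z' (rfl | hz') hr
        · rfl
        · exact absurd ⟨z', hz', hr⟩ h
        · exact absurd ⟨z, hz, hr.symm⟩ h
        · exact h3 z hz z' hz' hr

variable [CompactSpace X] [PreconnectedSpace X]

/-- Positive distance version of connecting outside a relatively closed set. -/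
theorem exists_far_connection (hA : PropA X) (hB : PropB X) {D Q C : Set X}
    (hD : IsPreconnected D) (hQ : closure Q ∩ D ⊆ Q) (hC : IsPreconnected C) (hCD : C ⊆ D)
    (hCQ : Disjoint C Q) {x y : X} (hx : x ∈ C) (hy : y ∈ C) :
    ∃ C' ⊆ D, IsPreconnected C' ∧ x ∈ C' ∧ y ∈ C' ∧ ∃ η > 0, ∀ u ∈ C', ∀ v ∈ Q, η ≤ dist u v := by
  apply chain_lemma (D := D) hC (fun s => ∃ η > 0, ∀ u ∈ s, ∀ v ∈ Q, η ≤ dist u v) _ _ hx hy
  · rintro s t ⟨η, hη, h1⟩ ⟨η', hη', h2⟩ -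
    refine ⟨min η η', lt_min hη hη', ?_⟩
    rintro u (hu | hu) v hv
    · exact (min_le_left _ _).trans (h1 u hu v hv)
    · exact (min_le_right _ _).trans (h2 u hu v hv)
  · intro u hu
    have hucl : u ∉ closure Q := fun h => Set.disjoint_left.1 hCQ hu (hQ ⟨h, hCD hu⟩)
    obtain ⟨ε, hε, h1⟩ := Metric.isOpen_iff.1 isClosed_closure.isOpen_compl u hucl
    obtain ⟨N, hN, hNc, huN, hNn⟩ := locconn_subset hA hB hD (hCD hu) (half_pos hε)
    refine ⟨N, fun n hn => (hN hn).1, hNc, huN, nhdsWithin_mono u hCD hNn, ε / 2, half_pos hε, ?_⟩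
    intro n hn v hv
    by_contra hcon
    push Not at hcon
    have h2 : dist v u < ε := by
      have h3 := mem_ball.1 (hN hn).2
      have h4 : dist v u ≤ dist v n + dist n u := dist_triangle _ _ _
      rw [dist_comm v n] at h4
      linarith
    exact h1 (mem_ball.2 h2) (subset_closure hv)

/-- The data of a triple with a uniform positive distance. -/
theorem exists_triple_data (hA : PropA X) (hB : PropB X) {S D : Set X} (hD : IsConnected D)
    (hDS : D ⊆ S) {δ : ℝ} (hδ : 0 < δ) :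
    ∃ Z ⊆ D, Z.Finite ∧ Z.Nonempty ∧ ∃ δ' > 0, δ' ≤ δ ∧ (TP S D →
      ∃ (z : Fin 3 → X) (C : Fin 3 → Set X), (∀ i, z i ∈ Z) ∧ ∀ i, IsPreconnected (C i) ∧
        C i ⊆ D ∧ (∀ u ∈ C i, ∀ v ∈ kap S (z i), δ' < dist u v) ∧ ∀ j, j ≠ i → z j ∈ C i) := by
  by_cases hTP : TP S D
  · obtain ⟨z, C, hz, hC⟩ := hTP
    have hex : ∀ i, ∃ C' ⊆ D, IsPreconnected C' ∧ (∀ j, j ≠ i → z j ∈ C') ∧
        ∃ η > 0, ∀ u ∈ C', ∀ v ∈ kap S (z i), η ≤ dist u v := by
      intro i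
      obtain ⟨h1, h2, h3, h4⟩ := hC i
      have hcl : closure (kap S (z i)) ∩ D ⊆ kap S (z i) := fun w hw =>
        mem_kap_of_mem_closure hA (hDS hw.2) hw.1
      obtain ⟨C', g1, g2, g3, g4, g5⟩ := exists_far_connection hA hB hD.isPreconnected hcl h1 h2 h3
        (h4 (i + 1) (by fin_cases i <;> decide)) (h4 (i + 2) (by fin_cases i <;> decide))
      refine ⟨C', g1, g2, ?_, g5⟩
      intro j hj
      have : j = i + 1 ∨ j = i + 2 := by
        revert hj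
        fin_cases i <;> fin_cases j <;> decide
      rcases this with rfl | rfl
      · exact g3
      · exact g4
    choose C' g1 g2 g3 η hη g4 using hex
    set δ' : ℝ := min δ (min (η 0) (min (η 1) (η 2)) / 2) with hδ'
    have hpos : 0 < δ' := by
      have := hη 0
      have := hη 1
      have := hη 2
      positivity
    refine ⟨range z, range_subset_iff.2 hz, finite_range z, range_nonempty z, δ', hpos,
      min_le_left _ _, fun _ => ⟨z, C', fun i => ⟨i, rfl⟩, fun i => ⟨g2 i, g1 i, ?_, g3 i⟩⟩⟩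
    intro u hu v hv
    have h1 := g4 i u hu v hv
    have h2 : δ' ≤ min (η 0) (min (η 1) (η 2)) / 2 := min_le_right _ _
    have h3 : min (η 0) (min (η 1) (η 2)) ≤ η i := by
      fin_cases i
      · exact min_le_left _ _
      · exact (min_le_right _ _).trans (min_le_left _ _)
      · exact (min_le_right _ _).trans (min_le_right _ _)
    have := hη i
    linarith
  · obtain ⟨z, hz⟩ := hD.nonempty
    exact ⟨{z}, singleton_subset_iff.2 hz, finite_singleton z, singleton_nonempty z, δ, hδ, le_rfl,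
      fun h => absurd h hTP⟩

/-- Every link has a refinement of arbitrarily small mesh. -/
theorem exists_ref (hA : PropA X) (hB : PropB X) {S D W : Set X} (hl : IsLink S D W) {δ : ℝ}
    (hδ : 0 < δ) : ∃ (M : Set (Set X)) (L : Set (Set X × Set X)), IsRef S D W δ M L := by
  classical
  obtain ⟨Z, hZD, hZfin, hZne, δ', hδ', hδδ', hTPZ⟩ :=
    exists_triple_data hA hB hl.conn hl.sub hδ
  obtain ⟨F, hF⟩ := regular hA hB hδ'
  obtain ⟨Φ, hΦsub, hΦrep, hΦrel⟩ := exists_reps S (T := Z ∪ ((F : Set X) ∩ D))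
    (hZfin.union (F.finite_toSet.subset inter_subset_left))
    (union_subset (hZD.trans hl.sub) (inter_subset_right.trans hl.sub))
  have hΦD : Φ ⊆ D := hΦsub.trans (union_subset hZD inter_subset_right)
  have hΦfin : Φ.Finite := (hZfin.union (F.finite_toSet.subset inter_subset_left)).subset hΦsub
  set T : Set X := Φ ∪ W with hT
  set E : Set X := D ∪ W with hE
  have hTfin : T.Finite := hΦfin.union hl.Wfin
  have hES : E ⊆ S := union_subset hl.sub hl.WS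
  have hTE : T ⊆ E := union_subset_union hΦD Subset.rfl
  have hEc : IsPreconnected E := hl.conn.isPreconnected.subset_closure subset_union_left
    (union_subset subset_closure hl.Wcl)
  -- no relation between `D` and `W`
  have hDW : ∀ x ∈ D, ∀ w ∈ W, ¬ CRel S x w := fun x hx w hw h =>
    Set.disjoint_left.1 hl.Wd hw (hl.sat x hx h)
  have hTrel : ∀ z ∈ T, ∀ z' ∈ T, CRel S z z' → z = z' := by
    rintro z (hz | hz) z' (hz' | hz') h
    · exact hΦrel z hz z' hz' h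
    · exact absurd h (hDW z (hΦD hz) z' hz')
    · exact absurd h.symm (hDW z' (hΦD hz') z hz)
    · exact hl.Wrel z hz z' hz' h
  set Es : Set X := E \ kapU S T with hEs
  have hEsD : Es ⊆ D := by
    rintro x ⟨hx | hx, hxT⟩
    · exact hx
    · exact absurd (mem_kapU.2 ⟨x, Or.inr hx, CRel.refl (hl.WS hx)⟩) hxT
  have hEsF : Disjoint Es (F : Set X) := by
    rw [Set.disjoint_left]
    intro x hx hxF
    obtain ⟨z', hz', hr⟩ := hΦrep x (Or.inr ⟨hxF, hEsD hx⟩)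
    exact hx.2 (mem_kapU.2 ⟨z', Or.inl hz', hr.symm⟩)
  set comp : X → Set X := fun y => connectedComponentIn Es y with hcomp
  have hcompEs : ∀ y, comp y ⊆ Es := fun y => connectedComponentIn_subset _ _
  have hcompdiam : ∀ y, Metric.diam (comp y) ≤ δ' := fun y =>
    hF _ isPreconnected_connectedComponentIn (hEsF.mono_left (hcompEs y))
  have hcompsat : ∀ y, ∀ x ∈ comp y, kap S x ⊆ comp y := by
    intro y x hx
    have hxEs := hcompEs y hx
    rw [show comp y = comp x from connectedComponentIn_eq hx]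
    apply isPreconnected_kap.subset_connectedComponentIn (self_mem_kap (hl.sub (hEsD hxEs)))
    intro v hv
    refine ⟨Or.inl (hl.sat x (hEsD hxEs) hv), ?_⟩
    intro hvT
    obtain ⟨z, hz, hzv⟩ := mem_kapU.1 hvT
    exact hxEs.2 (mem_kapU.2 ⟨z, hz, hzv.trans (CRel.symm hv)⟩)
  -- adjacency
  set adj : Set X → X → Prop := fun G z => (kap S z ∩ E ∩ closure G).Nonempty with hadj
  -- choice of components for (R1)
  have hR1 : ∀ A : Set X, (∃ z₁ ∈ T, z₁ ∈ A) → (∃ z₂ ∈ T, z₂ ∉ A) →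
      ∃ y ∈ Es, ∃ a ∈ T, a ∈ A ∧ adj (comp y) a ∧ ∃ b ∈ T, b ∉ A ∧ adj (comp y) b := by
    rintro A ⟨z₁, hz₁, hz₁A⟩ ⟨z₂, hz₂, hz₂A⟩
    obtain ⟨y, ⟨hy, -⟩, a, ha, haA, -, haj, b, hb, hbA, -, hbj⟩ := exists_between hA hB hES hEc hTfin
      hTrel (C := E) Subset.rfl hEc hz₁ hz₁A hz₂ hz₂A
      ⟨z₁, self_mem_kap (hES (hTE hz₁)), hTE hz₁⟩ ⟨z₂, self_mem_kap (hES (hTE hz₂)), hTE hz₂⟩
    exact ⟨y, hy, a, ha, haA, haj, b, hb, hbA, hbj⟩
  have hfinsub : {A : Set X | A ⊆ T}.Finite := hTfin.finite_subsets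
  have hY1 : ∃ Y₁ : Set X, Y₁.Finite ∧ (∀ y ∈ Y₁, y ∈ Es ∧ ∃ a ∈ T, ∃ b ∈ T, a ≠ b ∧
      adj (comp y) a ∧ adj (comp y) b) ∧ ∀ A : Set X, A ⊆ T → (∃ z₁ ∈ T, z₁ ∈ A) →
      (∃ z₂ ∈ T, z₂ ∉ A) → ∃ y ∈ Y₁, ∃ a ∈ T, a ∈ A ∧ adj (comp y) a ∧
        ∃ b ∈ T, b ∉ A ∧ adj (comp y) b := by
    have hex : ∀ A : Set X, ∃ y : X, ((∃ z₁ ∈ T, z₁ ∈ A) → (∃ z₂ ∈ T, z₂ ∉ A) →
        y ∈ Es ∧ ∃ a ∈ T, a ∈ A ∧ adj (comp y) a ∧ ∃ b ∈ T, b ∉ A ∧ adj (comp y) b) := by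
      intro A
      by_cases h : (∃ z₁ ∈ T, z₁ ∈ A) ∧ (∃ z₂ ∈ T, z₂ ∉ A)
      · obtain ⟨y, hy, h'⟩ := hR1 A h.1 h.2
        exact ⟨y, fun _ _ => ⟨hy, h'⟩⟩
      · obtain ⟨z, hz⟩ := hl.conn.nonempty
        exact ⟨z, fun h1 h2 => absurd ⟨h1, h2⟩ h⟩
    choose f hf using hex
    refine ⟨f '' {A : Set X | A ⊆ T ∧ (∃ z₁ ∈ T, z₁ ∈ A) ∧ (∃ z₂ ∈ T, z₂ ∉ A)},
      (hfinsub.subset fun A hA => hA.1).image f, ?_, ?_⟩
    · rintro _ ⟨A, ⟨-, h1, h2⟩, rfl⟩
      obtain ⟨hy, a, ha, haA, haj, b, hb, hbA, hbj⟩ := hf A h1 h2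
      exact ⟨hy, a, ha, b, hb, fun e => hbA (e ▸ haA), haj, hbj⟩
    · intro A hAT h1 h2
      exact ⟨f A, ⟨A, ⟨hAT, h1, h2⟩, rfl⟩, (hf A h1 h2).2⟩
  obtain ⟨Y₁, hY₁fin, hY₁, hY₁R⟩ := hY1
  -- choice of components for (R2)
  have hY2 : ∃ Y₂ : Set X, Y₂.Finite ∧ (∀ y ∈ Y₂, y ∈ Es ∧ ∃ a ∈ T, ∃ b ∈ T, a ≠ b ∧
      adj (comp y) a ∧ adj (comp y) b) ∧ (TP S D → ∃ ζ : Fin 3 → X, (∀ i, ζ i ∈ Φ) ∧
      (∀ i j, i ≠ j → ζ i ≠ ζ j) ∧ ∀ i, ∀ A : Set X, A ⊆ T → ∀ j k, j ≠ i → k ≠ i → ζ j ∈ A →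
        ζ k ∉ A → ∃ y ∈ Y₂, Disjoint (closure (comp y)) (kap S (ζ i)) ∧
          ∃ a ∈ T, a ∈ A ∧ adj (comp y) a ∧ ∃ b ∈ T, b ∉ A ∧ b ≠ ζ i ∧ adj (comp y) b) := by
    by_cases hTP : TP S D
    · obtain ⟨z, C, hzZ, hC⟩ := hTPZ hTP
      have hrep : ∀ i, ∃ ζ ∈ Φ, CRel S (z i) ζ := fun i => hΦrep (z i) (Or.inl (hzZ i))
      choose ζ hζΦ hζ using hrep
      have hkap : ∀ i, kap S (ζ i) = kap S (z i) := fun i => (kap_eq (hζ i)).symm
      have hex : ∀ (i j k : Fin 3) (A : Set X), ∃ y : X, (j ≠ i → k ≠ i → ζ j ∈ A → ζ k ∉ A →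
          y ∈ Es ∧ Disjoint (closure (comp y)) (kap S (ζ i)) ∧
          ∃ a ∈ T, a ∈ A ∧ adj (comp y) a ∧ ∃ b ∈ T, b ∉ A ∧ b ≠ ζ i ∧ adj (comp y) b) := by
        intro i j k A
        by_cases h : j ≠ i ∧ k ≠ i ∧ ζ j ∈ A ∧ ζ k ∉ A
        · obtain ⟨hji, hki, hjA, hkA⟩ := h
          obtain ⟨h1, h2, h3, h4⟩ := hC i
          obtain ⟨y, ⟨hy, hyC⟩, a, ha, haA, -, haj, b, hb, hbA, hbC, hbj⟩ := exists_between hA hB
            hES hEc hTfin hTrel (C := C i) (h2.trans subset_union_left) h1 (Or.inl (hζΦ j)) hjA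
            (Or.inl (hζΦ k)) hkA ⟨z j, CRel.symm (hζ j), h4 j hji⟩
            ⟨z k, CRel.symm (hζ k), h4 k hki⟩
          refine ⟨y, fun _ _ _ _ => ⟨hy, ?_, a, ha, haA, haj, b, hb, hbA, ?_, hbj⟩⟩
          · rw [Set.disjoint_left]
            intro v hv hvk
            rw [hkap] at hvk
            have h5 := h3 y hyC v hvk
            have h6 := dist_le_diam (subset_closure (mem_connectedComponentIn hy)) hv
            rw [Metric.diam_closure] at h6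
            have h7 := hcompdiam y
            linarith
          · rintro rfl
            obtain ⟨v, hv, hvC⟩ := hbC
            rw [hkap] at hv
            have := h3 v hvC v hv
            rw [dist_self] at this
            linarith
        · obtain ⟨x, hx⟩ := hl.conn.nonempty
          exact ⟨x, fun h1 h2 h3 h4 => absurd ⟨h1, h2, h3, h4⟩ h⟩
      choose f hf using hex
      refine ⟨⋃ i, ⋃ j, ⋃ k, f i j k '' {A : Set X | A ⊆ T ∧ j ≠ i ∧ k ≠ i ∧ ζ j ∈ A ∧ ζ k ∉ A},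
        ?_, ?_, fun _ => ⟨ζ, hζΦ, ?_, ?_⟩⟩
      · refine finite_iUnion fun i => finite_iUnion fun j => finite_iUnion fun k => ?_
        exact (hfinsub.subset fun A hA => hA.1).image _
      · intro y hy
        simp only [mem_iUnion] at hy
        obtain ⟨i, j, k, A, ⟨-, h1, h2, h3, h4⟩, rfl⟩ := hy
        obtain ⟨hy, -, a, ha, haA, haj, b, hb, hbA, -, hbj⟩ := hf i j k A h1 h2 h3 h4
        exact ⟨hy, a, ha, b, hb, fun e => hbA (e ▸ haA), haj, hbj⟩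
      · intro i j hij he
        obtain ⟨h1, h2, h3, h4⟩ := hC i
        have h5 : CRel S (z i) (z j) := (hζ i).trans (by rw [he]; exact (hζ j).symm)
        have := h3 (z j) (h4 j hij.symm) (z j) h5
        rw [dist_self] at this
        linarith
      · intro i A hAT j k hji hki hjA hkA
        refine ⟨f i j k A, ?_, (hf i j k A hji hki hjA hkA).2⟩
        simp only [mem_iUnion]
        exact ⟨i, j, k, A, ⟨hAT, hji, hki, hjA, hkA⟩, rfl⟩
    · exact ⟨∅, finite_empty, fun y hy => absurd hy (notMem_empty y), fun h => absurd h hTP⟩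
  obtain ⟨Y₂, hY₂fin, hY₂, hY₂R⟩ := hY2
  set Y : Set X := Y₁ ∪ Y₂ with hY
  have hYfin : Y.Finite := hY₁fin.union hY₂fin
  have hYprop : ∀ y ∈ Y, y ∈ Es ∧ ∃ a ∈ T, ∃ b ∈ T, a ≠ b ∧ adj (comp y) a ∧ adj (comp y) b := by
    rintro y (hy | hy)
    · exact hY₁ y hy
    · exact hY₂ y hy
  set 𝒢 : Set (Set X) := comp '' Y with h𝒢
  have h𝒢fin : 𝒢.Finite := hYfin.image comp
  -- attaching points
  have hpt : ∀ (G : Set X) (z : X), ∃ x : X, adj G z → x ∈ kap S z ∩ E ∩ closure G := by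
    intro G z
    by_cases h : adj G z
    · obtain ⟨x, hx⟩ := h
      exact ⟨x, fun _ => hx⟩
    · exact ⟨z, fun h' => absurd h' h⟩
  choose pt hpt using hpt
  set Wg : Set X → Set X := fun G => pt G '' {z ∈ T | adj G z} with hWg
  -- node continua
  have hnode : ∀ z ∈ T, ∃ m : Set X, IsCompact m ∧ IsConnected m ∧ m ⊆ kap S z ∧ z ∈ m ∧
      (∀ G ∈ 𝒢, adj G z → pt G z ∈ m) ∧ (z ∈ W → m = {z}) := by
    intro z hz
    by_cases hzW : z ∈ W
    · refine ⟨{z}, isCompact_singleton, isConnected_singleton,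
        singleton_subset_iff.2 (self_mem_kap (hl.WS hzW)), rfl, ?_, fun _ => rfl⟩
      intro G _ hGz
      obtain ⟨⟨h1, h2⟩, -⟩ := hpt G z hGz
      rcases h2 with h2 | h2
      · exact absurd (CRel.symm h1) (hDW _ h2 z hzW)
      · exact (hl.Wrel z hzW _ h2 h1).symm
    · have hzS : z ∈ S := hES (hTE hz)
      obtain ⟨m, h1, h2, h3, h4, h5⟩ := exists_continuum_of_finite hzS
        (T := (fun G => pt G z) '' {G ∈ 𝒢 | adj G z}) ((h𝒢fin.subset (sep_subset _ _)).image _) (by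
          rintro _ ⟨G, ⟨-, hG⟩, rfl⟩
          exact (hpt G z hG).1.1)
      exact ⟨m, h2, h3, h1, h4, fun G hG hGz => h5 ⟨G, ⟨hG, hGz⟩, rfl⟩, fun h => absurd h hzW⟩
  choose! node hn1 hn2 hn3 hn4 hn5 hn6 using hnode
  -- relations between attaching points
  have hptrel : ∀ G z z', adj G z → adj G z' → z ∈ T → z' ∈ T → CRel S (pt G z) (pt G z') →
      z = z' := by
    intro G z z' h1 h2 hz hz' hr
    exact hTrel z hz z' hz' ((hpt G z h1).1.1.trans (hr.trans (CRel.symm (hpt G z' h2).1.1)))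
  have hkapΦ : ∀ z ∈ Φ, kap S z ⊆ D := fun z hz => hl.sat z (hΦD hz)
  have hdis : ∀ z ∈ T, ∀ y, Disjoint (comp y) (kap S z) := by
    intro z hz y
    rw [Set.disjoint_left]
    intro v hv hvz
    exact (hcompEs y hv).2 (mem_kapU.2 ⟨z, hz, hvz⟩)
  refine ⟨node '' Φ, (fun G => (G, Wg G)) '' 𝒢, ?_⟩
  have hunion : W ∪ ⋃₀ (node '' Φ) = ⋃ z ∈ T, node z := by
    ext x
    simp only [mem_union, mem_sUnion, mem_iUnion]
    constructor
    · rintro (hx | ⟨_, ⟨z, hz, rfl⟩, hx⟩)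
      · exact ⟨x, Or.inr hx, hn4 x (Or.inr hx)⟩
      · exact ⟨z, Or.inl hz, hx⟩
    · rintro ⟨z, hz | hz, hx⟩
      · exact Or.inr ⟨node z, ⟨z, hz, rfl⟩, hx⟩
      · rw [hn6 z (Or.inr hz) hz] at hx
        rw [mem_singleton_iff.1 hx]
        exact Or.inl hz
  have htriv : ∀ A : Set X, ∀ w ∈ W, node w ⊆ A ∨ Disjoint (node w) A := by
    intro A w hw
    rw [hn6 w (Or.inr hw) hw]
    by_cases h : w ∈ A
    · exact Or.inl (singleton_subset_iff.2 h)
    · exact Or.inr (disjoint_singleton_left.2 h)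
  constructor
  · -- Mne
    obtain ⟨z, hz⟩ := hZne
    obtain ⟨z', hz', -⟩ := hΦrep z (Or.inl hz)
    exact ⟨node z', z', hz', rfl⟩
  · exact hΦfin.image _
  · rintro _ ⟨z, hz, rfl⟩
    exact ⟨hn1 z (Or.inl hz), hn2 z (Or.inl hz), (hn3 z (Or.inl hz)).trans (hkapΦ z hz)⟩
  · rintro _ ⟨z, hz, rfl⟩ _ ⟨z', hz', rfl⟩ x hx x' hx' hr
    have h1 : CRel S z x := hn3 z (Or.inl hz) hx
    have h2 : CRel S z' x' := hn3 z' (Or.inl hz') hx'
    rw [hΦrel z hz z' hz' (h1.trans (hr.trans h2.symm))]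
  · exact h𝒢fin.image _
  · -- Llink
    rintro _ ⟨_, ⟨y, hy, rfl⟩, rfl⟩
    obtain ⟨hyEs, a, ha, b, hb, hab, haj, hbj⟩ := hYprop y hy
    constructor
    · exact isConnected_connectedComponentIn_iff.2 hyEs
    · exact ((hcompEs y).trans hEsD).trans hl.sub
    · exact hcompsat y
    · exact (hTfin.subset (sep_subset _ _)).image _
    · exact ⟨pt (comp y) a, a, ⟨ha, haj⟩, rfl⟩
    · rintro _ ⟨z, ⟨hz, hzj⟩, rfl⟩
      exact kap_subset (hpt _ z hzj).1.1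
    · rw [Set.disjoint_left]
      rintro _ ⟨z, ⟨hz, hzj⟩, rfl⟩ h
      exact Set.disjoint_left.1 (hdis z hz y) h (hpt _ z hzj).1.1
    · rintro _ ⟨z, ⟨hz, hzj⟩, rfl⟩
      exact (hpt _ z hzj).2
    · rintro _ ⟨z, ⟨hz, hzj⟩, rfl⟩ _ ⟨z', ⟨hz', hzj'⟩, rfl⟩ hr
      rw [hptrel _ z z' hzj hzj' hz hz' hr]
  · rintro _ ⟨_, ⟨y, hy, rfl⟩, rfl⟩
    exact (hcompEs y).trans hEsD
  · rintro _ ⟨_, ⟨y, hy, rfl⟩, rfl⟩
    exact (hcompdiam y).trans hδδ'
  · rintro _ ⟨_, ⟨y, hy, rfl⟩, rfl⟩ _ ⟨z, hz, rfl⟩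
    exact (hdis z (Or.inl hz) y).mono_right (hn3 z (Or.inl hz))
  · rintro _ ⟨_, ⟨y, hy, rfl⟩, rfl⟩ _ ⟨_, ⟨y', hy', rfl⟩, rfl⟩ hne
    rw [Set.disjoint_left]
    intro v hv hv'
    apply hne
    have : comp y = comp y' := connectedComponentIn_eq_of_mem hv hv'
    simp only [this]
  · -- LW
    rintro _ ⟨G, hG, rfl⟩
    rw [hunion]
    rintro _ ⟨z, ⟨hz, hzj⟩, rfl⟩
    exact mem_biUnion hz (hn5 z hz G hG hzj)
  · -- Ltwo
    rintro _ ⟨_, ⟨y, hy, rfl⟩, rfl⟩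
    obtain ⟨hyEs, a, ha, b, hb, hab, haj, hbj⟩ := hYprop y hy
    refine ⟨pt (comp y) a, ⟨a, ⟨ha, haj⟩, rfl⟩, pt (comp y) b, ⟨b, ⟨hb, hbj⟩, rfl⟩, ?_⟩
    intro he
    apply hab
    apply hptrel _ a b haj hbj ha hb
    rw [← he]
    exact CRel.refl (kap_subset (hpt _ a haj).1.1)
  · -- R1
    intro A hM hL
    rw [hunion]
    have hcase : ∀ z ∈ T, node z ⊆ A ∨ Disjoint (node z) A := by
      rintro z (hz | hz)
      · exact hM _ ⟨z, hz, rfl⟩
      · exact htriv A z hz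
    set A' : Set X := {z ∈ T | node z ⊆ A} with hA'
    by_cases h1 : ∃ z₁ ∈ T, z₁ ∈ A'
    · by_cases h2 : ∃ z₂ ∈ T, z₂ ∉ A'
      · exfalso
        obtain ⟨y, hy, a, ha, haA, haj, b, hb, hbA, hbj⟩ := hY₁R A' (sep_subset _ _) h1 h2
        have hG : comp y ∈ 𝒢 := ⟨y, Or.inl hy, rfl⟩
        have hpa : pt (comp y) a ∈ A := haA.2 (hn5 a ha _ hG haj)
        have hpb : pt (comp y) b ∉ A := by
          have hdb : Disjoint (node b) A := by
            rcases hcase b hb with h | h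
            · exact absurd ⟨hb, h⟩ hbA
            · exact h
          exact Set.disjoint_left.1 hdb (hn5 b hb _ hG hbj)
        rcases hL _ ⟨comp y, hG, rfl⟩ with h | h
        · exact hpb (h ⟨b, ⟨hb, hbj⟩, rfl⟩)
        · exact Set.disjoint_left.1 h ⟨a, ⟨ha, haj⟩, rfl⟩ hpa
      · left
        push Not at h2
        exact iUnion₂_subset fun z hz => (h2 z hz).2
    · right
      push Not at h1
      rw [disjoint_iUnion₂_left]
      intro z hz
      rcases hcase z hz with h | h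
      · exact absurd ⟨hz, h⟩ (h1 z hz)
      · exact h
  · -- R2
    intro hTP
    obtain ⟨ζ, hζΦ, hζne, hζR⟩ := hY₂R hTP
    have hninj : ∀ z ∈ T, ∀ z' ∈ T, node z = node z' → z = z' := by
      intro z hz z' hz' he
      have h1 : z ∈ node z' := he ▸ hn4 z hz
      exact (hTrel z' hz' z hz (hn3 z' hz' h1)).symm
    refine ⟨fun i => node (ζ i), fun i => ⟨ζ i, hζΦ i, rfl⟩, ?_, ?_⟩
    · intro i j hij
      by_contra hne
      exact hζne i j hne (hninj _ (Or.inl (hζΦ i)) _ (Or.inl (hζΦ j)) hij)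
    · intro i A hM hL j k hji hki hjA
      by_contra hkA
      have hcase : ∀ z ∈ T, z ≠ ζ i → node z ⊆ A ∨ Disjoint (node z) A := by
        rintro z (hz | hz) hzi
        · exact hM _ ⟨z, hz, rfl⟩ fun e => hzi (hninj _ (Or.inl hz) _ (Or.inl (hζΦ i)) e)
        · exact htriv A z hz
      set A' : Set X := {z ∈ T | z ≠ ζ i ∧ node z ⊆ A} with hA'
      obtain ⟨y, hy, hyd, a, ha, haA, haj, b, hb, hbA, hbi, hbj⟩ := hζR i A' (sep_subset _ _) j k
        hji hki ⟨Or.inl (hζΦ j), hζne j i hji, hjA⟩ (fun h => hkA h.2.2)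
      have hG : comp y ∈ 𝒢 := ⟨y, Or.inr hy, rfl⟩
      have hpa : pt (comp y) a ∈ A := haA.2.2 (hn5 a ha _ hG haj)
      have hpb : pt (comp y) b ∉ A := by
        have hdb : Disjoint (node b) A := by
          rcases hcase b hb hbi with h | h
          · exact absurd ⟨hb, hbi, h⟩ hbA
          · exact h
        exact Set.disjoint_left.1 hdb (hn5 b hb _ hG hbj)
      rcases hL _ ⟨comp y, hG, rfl⟩ (hyd.mono_right (hn3 _ (Or.inl (hζΦ i)))) with h | h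
      · exact hpb (h ⟨b, ⟨hb, hbj⟩, rfl⟩)
      · exact Set.disjoint_left.1 h ⟨a, ⟨ha, haj⟩, rfl⟩ hpa

end refine

end Pool.Agent.ContA
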