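import Pool.Agent.ContA.Bridge

set_option autoImplicit false

open Set Metric Filter Topology

namespace Pool.Agent.ContA

section regular

variable {X : Type} [MetricSpace X] [CompactSpace X] [PreconnectedSpace X]

/-- States of the recursion: closed sets with finite trace on the arc `γ`. -/
abbrev BState (γ : ℝ → X) (α β : ℝ) : Type :=
  {H : Set X // IsClosed H ∧ {t ∈ Icc α β | γ t ∈ H}.Finite}

/-- No haven exists in a continuum with (A) and (B). -/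
theorem no_haven (hA : PropA X) (hB : PropB X) {ε : ℝ} (hε : 0 < ε) (h : Haven X ε) : False := by
  classical
  obtain ⟨p, hp, q, hq, hpq⟩ := h.exists_far hε.le
  have hpq' : p ≠ q := by
    rintro rfl
    rw [dist_self] at hpq
    linarith
  obtain ⟨α, β, hαβ, γ, hγc, hγi, hγN, hγo⟩ :=
    exists_arc hA hB h.isClosed_N h.isPreconnected_N hp hq hpq'
  -- an enumeration of intervals
  obtain ⟨e, he⟩ := exists_surjective_nat (ℚ × ℚ)
  set I : ℕ → ℝ × ℝ := fun n => if α ≤ ((e n).1 : ℝ) ∧ ((e n).1 : ℝ) < ((e n).2 : ℝ) ∧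
    ((e n).2 : ℝ) ≤ β then (((e n).1 : ℝ), ((e n).2 : ℝ)) else (α, β) with hIdef
  have hI : ∀ n, α ≤ (I n).1 ∧ (I n).1 < (I n).2 ∧ (I n).2 ≤ β := by
    intro n
    simp only [hIdef]
    split_ifs with hc
    · exact hc
    · exact ⟨le_rfl, hαβ, le_rfl⟩
  have hI2 : ∀ a b, α ≤ a → a < b → b ≤ β → ∃ n, a ≤ (I n).1 ∧ (I n).2 ≤ b := by
    intro a b ha hab hb
    obtain ⟨q₁, h1, h2⟩ := exists_rat_btwn (show a < (a + b) / 2 by linarith)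
    obtain ⟨q₂, h3, h4⟩ := exists_rat_btwn (show (a + b) / 2 < b by linarith)
    obtain ⟨n, hn⟩ := he (q₁, q₂)
    refine ⟨n, ?_⟩
    simp only [hIdef, hn]
    rw [if_pos ⟨by linarith, by linarith, by linarith⟩]
    exact ⟨h1.le, h4.le⟩
  -- one step
  have step : ∀ (H : BState γ α β) (n : ℕ),
      ∃ (u v : ℝ) (B : Set X), (I n).1 < u ∧ u < v ∧ v < (I n).2 ∧ IsCompact B ∧ IsConnected B ∧
        B ∩ h.N = {γ u, γ v} ∧ Disjoint B H.1 := by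
    intro H n
    obtain ⟨s, t, h1, h2, h3, h4⟩ := exists_Icc_avoid (hI n).2.1 H.2.2
    have hαs : α ≤ s := (hI n).1.trans h1.le
    have htβ : t ≤ β := h3.le.trans (hI n).2.2
    obtain ⟨u, v, hu, huv, hv, B, hB1, hB2, hB3, hB4⟩ := exists_bridge hA h hγc hγi hγN hγo
      hαs h2 htβ H.2.1 (by
        rw [Set.disjoint_left]
        rintro _ hzH ⟨w, hw, rfl⟩
        exact Set.disjoint_left.1 h4 hw ⟨Icc_subset_Icc hαs htβ hw, hzH⟩)
    exact ⟨u, v, B, h1.trans hu, huv, hv.trans h3, hB1, hB2, hB3, hB4⟩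
  choose u v B hu huv hv hBc hBcon hBN hBH using step
  have huI : ∀ H n, u H n ∈ Icc α β := fun H n =>
    ⟨((hI n).1.trans_lt (hu H n)).le, (((huv H n).trans (hv H n)).le.trans (hI n).2.2)⟩
  have hvI : ∀ H n, v H n ∈ Icc α β := fun H n =>
    ⟨((hI n).1.trans_lt ((hu H n).trans (huv H n))).le, ((hv H n).le.trans (hI n).2.2)⟩
  -- which parameters are in `B H n`
  have htr : ∀ H n, ∀ t ∈ Icc α β, γ t ∈ B H n → t = u H n ∨ t = v H n := by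
    intro H n t ht htB
    have h1 : γ t ∈ B H n ∩ h.N := ⟨htB, hγN t ht⟩
    rw [hBN] at h1
    rcases h1 with h1 | h1
    · exact Or.inl (hγi ht (huI H n) h1)
    · exact Or.inr (hγi ht (hvI H n) h1)
  have huB : ∀ H n, γ (u H n) ∈ B H n := fun H n =>
    (show γ (u H n) ∈ B H n ∩ h.N by rw [hBN]; exact Or.inl rfl).1
  have hvB : ∀ H n, γ (v H n) ∈ B H n := fun H n =>
    (show γ (v H n) ∈ B H n ∩ h.N by rw [hBN]; exact Or.inr rfl).1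
  set next : BState γ α β → ℕ → BState γ α β := fun H n => ⟨H.1 ∪ B H n, H.2.1.union (hBc H n).isClosed, by
    apply (H.2.2.union (Set.toFinite {u H n, v H n})).subset
    rintro t ⟨ht, ht1 | ht1⟩
    · exact Or.inl ⟨ht, ht1⟩
    · exact Or.inr (htr H n t ht ht1)⟩ with hnext
  set Hs : ℕ → BState γ α β := fun n => Nat.rec ⟨∅, isClosed_empty, by simp⟩ (fun n H => next H n) n with hHs
  have hHs1 : ∀ n, (Hs (n + 1)).1 = (Hs n).1 ∪ B (Hs n) n := fun n => rfl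
  have hHmono : ∀ m n, m ≤ n → (Hs m).1 ⊆ (Hs n).1 := by
    intro m n hmn
    induction n, hmn using Nat.le_induction with
    | base => exact Subset.rfl
    | succ n _ ih =>
      rw [hHs1]
      exact ih.trans subset_union_left
  set Bn : ℕ → Set X := fun n => B (Hs n) n with hBn
  have hdisj : ∀ m n, m < n → Disjoint (Bn m) (Bn n) := by
    intro m n hmn
    have h1 : Bn m ⊆ (Hs n).1 := by
      refine Subset.trans ?_ (hHmono (m + 1) n hmn)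
      rw [hHs1]
      exact subset_union_right
    exact ((hBH (Hs n) n).mono_right h1).symm
  have hdisj' : ∀ m n, m ≠ n → Disjoint (Bn m) (Bn n) := by
    intro m n hmn
    rcases lt_or_gt_of_ne hmn with hlt | hlt
    · exact hdisj m n hlt
    · exact (hdisj n m hlt).symm
  obtain ⟨U, hU, ⟨x, hxU, hxK⟩, hUsat, φ, hφ, hφi⟩ := exists_arc_chart hA hB (F := range Bn)
    (by
      rintro _ ⟨m, rfl⟩ _ ⟨n, rfl⟩ hne
      exact hdisj' m n fun e => hne (by rw [e]))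
    (by
      rintro _ ⟨n, rfl⟩
      exact ⟨hBc _ _, hBcon _ _⟩)
    (K := γ '' Icc α β) (isCompact_Icc.image_of_continuousOn hγc).isClosed
    ⟨γ α, α, ⟨le_rfl, hαβ.le⟩, rfl⟩
  obtain ⟨t₀, ht₀, rfl⟩ := hxK
  -- an interval mapped into `U`
  obtain ⟨a, b, ha, hab, hb, habU⟩ : ∃ a b, α ≤ a ∧ a < b ∧ b ≤ β ∧ ∀ t ∈ Icc a b, γ t ∈ U := by
    have h1 : γ ⁻¹' U ∈ 𝓝[Icc α β] t₀ := (hγc t₀ ht₀).preimage_mem_nhdsWithin (hU.mem_nhds hxU)
    obtain ⟨η, hη, hηs⟩ := Metric.mem_nhdsWithin_iff.1 h1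
    refine ⟨max α (t₀ - η / 2), min β (t₀ + η / 2), le_max_left _ _, ?_, min_le_left _ _, ?_⟩
    · rw [max_lt_iff, lt_min_iff, lt_min_iff]
      exact ⟨⟨hαβ, by linarith [ht₀.1]⟩, by linarith [ht₀.2], by linarith⟩
    · intro t ht
      apply hηs
      have h2 := (le_max_left _ _).trans ht.1
      have h3 := (le_max_right _ _).trans ht.1
      have h4 := ht.2.trans (min_le_left _ _)
      have h5 := ht.2.trans (min_le_right _ _)
      refine ⟨?_, h2, h4⟩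
      rw [mem_ball, Real.dist_eq, abs_lt]
      constructor <;> linarith
  obtain ⟨n, hn1, hn2⟩ := hI2 a b ha hab hb
  set U₀ := u (Hs n) n with hU₀
  set V₀ := v (Hs n) n with hV₀
  have hU₀a : a < U₀ := lt_of_le_of_lt hn1 (hu _ _)
  have hV₀b : V₀ < b := lt_of_lt_of_le (hv _ _) hn2
  have hUV : U₀ < V₀ := huv _ _
  -- two generic parameters
  set E : Set ℝ := (range fun n => u (Hs n) n) ∪ (range fun n => v (Hs n) n) with hE
  have hEc : E.Countable := (countable_range _).union (countable_range _)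
  have hdense : Dense Eᶜ := hEc.dense_compl ℝ
  obtain ⟨w₁, hw₁E, hw₁⟩ := hdense.exists_mem_open isOpen_Ioo (nonempty_Ioo.2 hUV)
  obtain ⟨w₂, hw₂E, hw₂⟩ := hdense.exists_mem_open isOpen_Ioo (nonempty_Ioo.2 hw₁.2)
  have hI0 : Icc U₀ V₀ ⊆ Icc α β := Icc_subset_Icc (by linarith) (by linarith)
  have hIU : ∀ t ∈ Icc U₀ V₀, γ t ∈ U ∩ γ '' Icc α β := fun t ht =>
    ⟨habU t ⟨by linarith [ht.1], by linarith [ht.2]⟩, t, hI0 ht, rfl⟩
  set ψ : ℝ → ℝ := fun t => φ (γ t) with hψ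
  have hψc : ContinuousOn ψ (Icc U₀ V₀) := hφ.comp (hγc.mono hI0) hIU
  have hgen : ∀ w ∈ Icc U₀ V₀, w ∈ Eᶜ → ∀ t ∈ Icc U₀ V₀, ψ t = ψ w → t = w := by
    intro w hw hwE t ht htw
    rcases (hφi _ (hIU t ht) _ (hIU w hw)).1 htw with h1 | ⟨_, ⟨m, rfl⟩, -, h2⟩
    · exact hγi (hI0 ht) (hI0 hw) h1
    · exfalso
      rcases htr (Hs m) m w (hI0 hw) h2 with h3 | h3
      · exact hwE (Or.inl ⟨m, h3.symm⟩)
      · exact hwE (Or.inr ⟨m, h3.symm⟩)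
  have hUm : U₀ ∈ Icc U₀ V₀ := ⟨le_rfl, hUV.le⟩
  have hVm : V₀ ∈ Icc U₀ V₀ := ⟨hUV.le, le_rfl⟩
  have hw₁m : w₁ ∈ Icc U₀ V₀ := ⟨hw₁.1.le, hw₁.2.le⟩
  have hw₂m : w₂ ∈ Icc U₀ V₀ := ⟨by linarith [hw₁.1, hw₂.1], hw₂.2.le⟩
  have hUVeq : ψ U₀ = ψ V₀ :=
    (hφi _ (hIU _ hUm) _ (hIU _ hVm)).2 (Or.inr ⟨Bn n, ⟨n, rfl⟩, huB _ _, hvB _ _⟩)
  have hends : ∀ t ∈ Icc U₀ V₀, ψ t = ψ U₀ → t = U₀ ∨ t = V₀ := by
    intro t ht htU
    rcases (hφi _ (hIU t ht) _ (hIU _ hUm)).1 htU with h1 | ⟨_, ⟨m, rfl⟩, h2, h3⟩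
    · exact Or.inl (hγi (hI0 ht) (hI0 hUm) h1)
    · have hmn : m = n := by
        by_contra hne
        exact Set.disjoint_left.1 (hdisj' m n hne) h3 (huB _ _)
      subst hmn
      exact htr (Hs m) m t (hI0 ht) h2
  -- the three order comparisons
  have c1 : (ψ w₂ < ψ w₁ ∧ ψ V₀ < ψ w₁) ∨ (ψ w₁ < ψ w₂ ∧ ψ w₁ < ψ V₀) := by
    have hs : Icc w₂ V₀ ⊆ Icc U₀ V₀ := Icc_subset_Icc hw₂m.1 le_rfl
    rcases isPreconnected_Icc.mapsTo_Ioi_or_Iio (b := ψ w₁) (hψc.mono hs) (by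
      intro t ht hteq
      have := hgen w₁ hw₁m hw₁E t (hs ht) hteq
      linarith [ht.1, hw₂.1]) with h1 | h1
    · exact Or.inr ⟨h1 ⟨le_rfl, hw₂.2.le⟩, h1 ⟨hw₂.2.le, le_rfl⟩⟩
    · exact Or.inl ⟨h1 ⟨le_rfl, hw₂.2.le⟩, h1 ⟨hw₂.2.le, le_rfl⟩⟩
  have c2 : (ψ U₀ < ψ w₂ ∧ ψ w₁ < ψ w₂) ∨ (ψ w₂ < ψ U₀ ∧ ψ w₂ < ψ w₁) := by
    have hs : Icc U₀ w₁ ⊆ Icc U₀ V₀ := Icc_subset_Icc le_rfl hw₁m.2
    rcases isPreconnected_Icc.mapsTo_Ioi_or_Iio (b := ψ w₂) (hψc.mono hs) (by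
      intro t ht hteq
      have := hgen w₂ hw₂m hw₂E t (hs ht) hteq
      linarith [ht.2, hw₂.1]) with h1 | h1
    · exact Or.inr ⟨h1 ⟨le_rfl, hw₁.1.le⟩, h1 ⟨hw₁.1.le, le_rfl⟩⟩
    · exact Or.inl ⟨h1 ⟨le_rfl, hw₁.1.le⟩, h1 ⟨hw₁.1.le, le_rfl⟩⟩
  have c3 : (ψ w₁ < ψ U₀ ∧ ψ w₂ < ψ U₀) ∨ (ψ U₀ < ψ w₁ ∧ ψ U₀ < ψ w₂) := by
    have hs : Icc w₁ w₂ ⊆ Icc U₀ V₀ := Icc_subset_Icc hw₁m.1 hw₂m.2
    rcases isPreconnected_Icc.mapsTo_Ioi_or_Iio (b := ψ U₀) (hψc.mono hs) (by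
      intro t ht hteq
      rcases hends t (hs ht) hteq with h3 | h3
      · linarith [ht.1, hw₁.1]
      · linarith [ht.2, hw₂.2]) with h1 | h1
    · exact Or.inr ⟨h1 ⟨le_rfl, hw₂.1.le⟩, h1 ⟨hw₂.1.le, le_rfl⟩⟩
    · exact Or.inl ⟨h1 ⟨le_rfl, hw₂.1.le⟩, h1 ⟨hw₂.1.le, le_rfl⟩⟩
  rw [← hUVeq] at c1
  rcases c1 with ⟨h1, h2⟩ | ⟨h1, h2⟩ <;> rcases c2 with ⟨h3, h4⟩ | ⟨h3, h4⟩ <;>
    rcases c3 with ⟨h5, h6⟩ | ⟨h5, h6⟩ <;> linarith

/-- Regularity: a continuum with (A) and (B) has finite sets with small complementary pieces. -/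
theorem regular (hA : PropA X) (hB : PropB X) {ε : ℝ} (hε : 0 < ε) :
    ∃ F : Finset X, ∀ C : Set X, IsPreconnected C → Disjoint C (F : Set X) →
      Metric.diam C ≤ ε := by
  by_contra hcon
  push Not at hcon
  obtain ⟨L, h1, h2, h3⟩ := exists_haven hA hε hcon
  exact no_haven hA hB hε ⟨L, h1, h2, h3⟩

end regular

end Pool.Agent.ContA
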